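import Pool.Agent.Helper64.Parry.Defs

/-!
Parry numbers, orbits, conjugate orbits and three criteria for a real number not to be Parry.
-/

namespace Pool.Agent.Helper64.Parry

open Polynomial

/-- the orbit of `1` -/
noncomputable def orb (B : ℝ) (n : ℕ) : ℝ := (betaMap B)^[n] 1

/-- the digits -/
noncomputable def dig (B : ℝ) (n : ℕ) : ℤ := ⌊B * orb B n⌋

/-- the conjugate orbit -/
noncomputable def corb (B : ℝ) (Z : ℂ) : ℕ → ℂ
  | 0 => 1
  | n + 1 => Z * corb B Z n - (dig B n : ℂ)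

/-- the orbit polynomials -/
noncomputable def pol (B : ℝ) : ℕ → ℤ[X]
  | 0 => 1
  | n + 1 => X * pol B n - C (dig B n)

/-- every integer polynomial vanishing at `B` vanishes at `Z` -/
def Conj (B : ℝ) (Z : ℂ) : Prop := ∀ p : ℤ[X], aeval B p = 0 → aeval Z p = 0

theorem orb_zero (B : ℝ) : orb B 0 = 1 := rfl

theorem orb_succ (B : ℝ) (n : ℕ) : orb B (n + 1) = B * orb B n - (dig B n : ℝ) := by
  simp only [orb, dig, Function.iterate_succ_apply', betaMap]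

theorem corb_zero (B : ℝ) (Z : ℂ) : corb B Z 0 = 1 := rfl

theorem corb_succ (B : ℝ) (Z : ℂ) (n : ℕ) :
    corb B Z (n + 1) = Z * corb B Z n - (dig B n : ℂ) := rfl

theorem orb_nonneg_succ (B : ℝ) (n : ℕ) : 0 ≤ orb B (n + 1) := by
  rw [orb_succ]; unfold dig
  linarith [Int.floor_le (B * orb B n)]

theorem orb_lt_one_succ (B : ℝ) (n : ℕ) : orb B (n + 1) < 1 := by
  rw [orb_succ]; unfold dig
  linarith [Int.lt_floor_add_one (B * orb B n)]

theorem orb_nonneg (B : ℝ) (n : ℕ) : 0 ≤ orb B n := by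
  cases n with
  | zero => simp [orb_zero]
  | succ n => exact orb_nonneg_succ B n

theorem orb_le_one (B : ℝ) (n : ℕ) : orb B n ≤ 1 := by
  cases n with
  | zero => simp [orb_zero]
  | succ n => exact (orb_lt_one_succ B n).le

theorem dig_nonneg {B : ℝ} (hB : 0 ≤ B) (n : ℕ) : 0 ≤ dig B n := by
  unfold dig
  exact Int.floor_nonneg.mpr (mul_nonneg hB (orb_nonneg B n))

theorem dig_le {B : ℝ} (hB : 0 ≤ B) (n : ℕ) : dig B n ≤ ⌊B⌋ := by
  unfold dig
  apply Int.floor_le_floor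
  nlinarith [orb_le_one B n]

theorem aeval_pol (B : ℝ) (n : ℕ) : aeval B (pol B n) = orb B n := by
  induction n with
  | zero => simp [pol, orb_zero]
  | succ n ih => rw [orb_succ, pol, map_sub, map_mul, aeval_X, ih, aeval_C]; simp

theorem aeval_pol_conj (B : ℝ) (Z : ℂ) (n : ℕ) : aeval Z (pol B n) = corb B Z n := by
  induction n with
  | zero => simp [pol, corb_zero]
  | succ n ih => rw [corb_succ, pol, map_sub, map_mul, aeval_X, ih, aeval_C]; simp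

theorem corb_eq_of_orb_eq {B : ℝ} {Z : ℂ} (h : Conj B Z) {n m : ℕ} (hnm : orb B n = orb B m) :
    corb B Z n = corb B Z m := by
  have := h (pol B n - pol B m) (by rw [map_sub, aeval_pol, aeval_pol, hnm, sub_self])
  rw [map_sub, aeval_pol_conj, aeval_pol_conj] at this
  exact sub_eq_zero.mp this

theorem corb_eq_zero_of_orb_eq_zero {B : ℝ} {Z : ℂ} (h : Conj B Z) {n : ℕ} (hn : orb B n = 0) :
    corb B Z n = 0 := by
  have := h (pol B n) (by rw [aeval_pol, hn])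
  rwa [aeval_pol_conj] at this

/-- the conjugate orbit of a Parry number is bounded -/
theorem corb_bounded {B : ℝ} {Z : ℂ} (h : Conj B Z) (hP : IsParry B) :
    ∃ M : ℝ, ∀ n, 1 ≤ n → ‖corb B Z n‖ ≤ M := by
  classical
  obtain ⟨_, hfin⟩ := hP
  let g : ℝ → ℝ := fun y => if hy : ∃ n : ℕ, 1 ≤ n ∧ orb B n = y then ‖corb B Z hy.choose‖ else 0
  obtain ⟨M, hM⟩ := (hfin.image g).bddAbove
  refine ⟨M, fun n hn => ?_⟩
  have hy : ∃ m : ℕ, 1 ≤ m ∧ orb B m = orb B n := ⟨n, hn, rfl⟩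
  have h1 : g (orb B n) = ‖corb B Z n‖ := by
    simp only [g, dif_pos hy]
    rw [corb_eq_of_orb_eq h hy.choose_spec.2]
  rw [← h1]
  apply hM
  exact ⟨orb B n, ⟨n, hn, rfl⟩, rfl⟩

/-- linear recursions with supercritical start are unbounded -/
theorem growth {q c : ℝ} (hq : 1 < q) (f : ℕ → ℝ) (n0 : ℕ)
    (h : ∀ n, n0 ≤ n → q * f n - c ≤ f (n + 1)) (h0 : c < f n0 * (q - 1)) (M : ℝ) :
    ∃ n, n0 ≤ n ∧ M < f n := by
  have hq' : 0 < q - 1 := by linarith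
  set e := c / (q - 1) with he
  have hce : c = e * (q - 1) := by rw [he]; field_simp
  have hδ : 0 < f n0 - e := by
    have : e * (q - 1) < f n0 * (q - 1) := by rw [← hce]; exact h0
    have := lt_of_mul_lt_mul_right this hq'.le
    linarith
  have key : ∀ j : ℕ, q ^ j * (f n0 - e) ≤ f (n0 + j) - e := by
    intro j
    induction j with
    | zero => simp
    | succ j ih =>
      have h1 := h (n0 + j) (Nat.le_add_right _ _)
      have h2 : q * (f (n0 + j) - e) ≤ f (n0 + j + 1) - e := by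
        rw [hce] at h1
        nlinarith
      have h3 : q * (q ^ j * (f n0 - e)) ≤ q * (f (n0 + j) - e) :=
        mul_le_mul_of_nonneg_left ih (by linarith)
      calc q ^ (j + 1) * (f n0 - e) = q * (q ^ j * (f n0 - e)) := by ring
        _ ≤ q * (f (n0 + j) - e) := h3
        _ ≤ f (n0 + j + 1) - e := h2
  obtain ⟨j, hj⟩ := pow_unbounded_of_one_lt ((M - e) / (f n0 - e)) hq
  refine ⟨n0 + j, Nat.le_add_right _ _, ?_⟩
  have h1 := key j
  have h2 : M - e < q ^ j * (f n0 - e) := by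
    rwa [div_lt_iff₀ hδ] at hj
  linarith

/-- Criterion by explicit digits: if the conjugate orbit leaves the disc of radius
`⌊B⌋ / (|Z| − 1)`, then `B` is not Parry. -/
theorem not_parry_of_escape {B : ℝ} {Z : ℂ} (hc : Conj B Z) (hB : 1 < B) (hZ : 1 < ‖Z‖) (n : ℕ)
    (hn : 1 ≤ n) (h : (⌊B⌋ : ℝ) < ‖corb B Z n‖ * (‖Z‖ - 1)) : ¬ IsParry B := by
  intro hP
  obtain ⟨M, hM⟩ := corb_bounded hc hP
  obtain ⟨m, hm, hlt⟩ := growth hZ (fun n => ‖corb B Z n‖) n (c := (⌊B⌋ : ℝ)) (by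
    intro m _
    rw [corb_succ]
    have h1 : ‖Z * corb B Z m‖ - ‖((dig B m : ℤ) : ℂ)‖ ≤ ‖Z * corb B Z m - (dig B m : ℂ)‖ :=
      norm_sub_norm_le _ _
    rw [norm_mul] at h1
    have h2 : ‖((dig B m : ℤ) : ℂ)‖ ≤ (⌊B⌋ : ℝ) := by
      rw [Complex.norm_intCast]
      have h3 := dig_nonneg (by linarith : (0:ℝ) ≤ B) m
      have h4 := dig_le (by linarith : (0:ℝ) ≤ B) m
      have h5 : (0 : ℝ) ≤ (dig B m : ℝ) := by exact_mod_cast h3
      rw [abs_of_nonneg h5]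
      exact_mod_cast h4
    linarith) h M
  exact absurd (hM m (le_trans hn hm)) (not_le.mpr hlt)

/-- auxiliary sums `S_n = Σ_{i<n} a_i Z^{n-1-i}` -/
noncomputable def sums (B : ℝ) (Z : ℂ) : ℕ → ℂ
  | 0 => 0
  | n + 1 => Z * sums B Z n + (orb B n : ℂ)

theorem corb_eq_sums (B : ℝ) (Z : ℂ) (n : ℕ) :
    corb B Z n = (orb B n : ℂ) + (Z - B) * sums B Z n := by
  induction n with
  | zero => simp [corb_zero, orb_zero, sums]
  | succ n ih =>
    rw [corb_succ, ih, orb_succ, sums]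
    push_cast
    ring

/-- First criterion: for a conjugate `Z ≠ B`, `|Z| > 1`, of a Parry number `B` one has
`|2Z − 1| (|Z| − 1) ≤ |Z − 1|`. -/
theorem not_parry_of_half {B : ℝ} {Z : ℂ} (hc : Conj B Z) (hZB : Z ≠ B) (hZ : 1 < ‖Z‖)
    (h : ‖Z - 1‖ < ‖2 * Z - 1‖ * (‖Z‖ - 1)) : ¬ IsParry B := by
  intro hP
  obtain ⟨M, hM⟩ := corb_bounded hc hP
  have hZ1 : Z - 1 ≠ 0 := by
    intro h0
    have : Z = 1 := sub_eq_zero.mp h0
    rw [this] at hZ; simp at hZ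
  have hnZ1 : 0 < ‖Z - 1‖ := norm_pos_iff.mpr hZ1
  have hZB' : Z - B ≠ 0 := sub_ne_zero.mpr hZB
  have hnZB : 0 < ‖Z - B‖ := norm_pos_iff.mpr hZB'
  set e : ℂ := (1 / 2) / (Z - 1) with he
  have hfix : Z * e + 1 / 2 = e + (Z - 1) * (2 * e) := by
    rw [he]; field_simp; ring
  have hfix' : (Z - 1) * e = 1 / 2 := by
    rw [he]; field_simp
  -- R n = sums n + e
  have hrec : ∀ n, 1 ≤ n → ‖Z‖ * ‖sums B Z n + e‖ - 1 / 2 ≤ ‖sums B Z (n + 1) + e‖ := by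
    intro n hn
    have h1 : sums B Z (n + 1) + e = Z * (sums B Z n + e) - (1 / 2 - (orb B n : ℂ)) := by
      rw [sums]
      linear_combination -hfix'
    rw [h1]
    have h2 : ‖Z * (sums B Z n + e)‖ - ‖(1 / 2 : ℂ) - (orb B n : ℂ)‖ ≤
        ‖Z * (sums B Z n + e) - (1 / 2 - (orb B n : ℂ))‖ := norm_sub_norm_le _ _
    rw [norm_mul] at h2
    have h3 : ‖(1 / 2 : ℂ) - (orb B n : ℂ)‖ ≤ 1 / 2 := by
      have h4 : ((1 / 2 : ℂ) - (orb B n : ℂ)) = (((1 / 2 : ℝ) - orb B n : ℝ) : ℂ) := by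
        push_cast; ring
      rw [h4, Complex.norm_real, Real.norm_eq_abs, abs_le]
      constructor <;> linarith [orb_nonneg B n, orb_le_one B n]
    linarith
  have hstart : (1 / 2 : ℝ) < ‖sums B Z 1 + e‖ * (‖Z‖ - 1) := by
    have h1 : sums B Z 1 + e = (2 * Z - 1) / (2 * (Z - 1)) := by
      simp only [sums, orb_zero, he]
      push_cast
      field_simp
      ring
    rw [h1, norm_div, norm_mul, Complex.norm_ofNat]
    rw [div_mul_eq_mul_div, lt_div_iff₀ (by positivity)]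
    linarith
  -- bound on sums
  have hb : ∀ n, 1 ≤ n → ‖sums B Z n + e‖ ≤ (M + 1) / ‖Z - B‖ + ‖e‖ := by
    intro n hn
    have h1 : (Z - B) * sums B Z n = corb B Z n - (orb B n : ℂ) := by
      rw [corb_eq_sums]; ring
    have h2 : ‖Z - B‖ * ‖sums B Z n‖ ≤ M + 1 := by
      rw [← norm_mul, h1]
      have h3 : ‖corb B Z n - (orb B n : ℂ)‖ ≤ ‖corb B Z n‖ + ‖((orb B n : ℝ) : ℂ)‖ :=
        norm_sub_le _ _
      have h4 : ‖((orb B n : ℝ) : ℂ)‖ ≤ 1 := by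
        rw [Complex.norm_real, Real.norm_eq_abs, abs_le]
        constructor <;> linarith [orb_nonneg B n, orb_le_one B n]
      linarith [hM n hn]
    have h3 : ‖sums B Z n‖ ≤ (M + 1) / ‖Z - B‖ := by
      rw [le_div_iff₀ hnZB]; linarith
    linarith [norm_add_le (sums B Z n) e]
  obtain ⟨m, hm, hlt⟩ := growth hZ (fun n => ‖sums B Z n + e‖) 1 hrec hstart
    ((M + 1) / ‖Z - B‖ + ‖e‖)
  exact absurd (hb m hm) (not_le.mpr hlt)

/-- Golden mean bound: a conjugate `Z ≠ B` of a Parry number satisfies `|Z|² ≤ |Z| + 1`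
(when `|Z| > 1`). -/
theorem not_parry_of_golden {B : ℝ} {Z : ℂ} (hc : Conj B Z) (hZB : Z ≠ B) (hZ : 1 < ‖Z‖)
    (h : ‖Z‖ + 1 < ‖Z‖ ^ 2) : ¬ IsParry B := by
  apply not_parry_of_half hc hZB hZ
  have hsq : ‖Z - 1‖ ^ 2 < (‖2 * Z - 1‖ * (‖Z‖ - 1)) ^ 2 := by
    set ρ := ‖Z‖ with hρ
    have h1 : ρ ^ 2 = Z.re ^ 2 + Z.im ^ 2 := by
      rw [hρ, Complex.sq_norm, Complex.normSq_apply]; ring
    have h2 : ‖Z - 1‖ ^ 2 = ρ ^ 2 - 2 * Z.re + 1 := by
      rw [Complex.sq_norm, Complex.normSq_apply, h1]; simp; ring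
    have h3 : ‖2 * Z - 1‖ ^ 2 = 4 * ρ ^ 2 - 4 * Z.re + 1 := by
      rw [Complex.sq_norm, Complex.normSq_apply, h1]; simp; ring
    rw [mul_pow, h2, h3]
    have h4 : |Z.re| ≤ ρ := Complex.abs_re_le_norm Z
    obtain ⟨h5, h6⟩ := abs_le.mp h4
    -- linear in Z.re : combine endpoints
    set x := Z.re
    -- f(x) = (4ρ²-4x+1)(ρ-1)² - (ρ²-2x+1)
    have e1 : 0 < (2 * ρ + 1) ^ 2 * (ρ - 1) ^ 2 - (ρ + 1) ^ 2 := by
      have a1 : 0 < (2 * ρ + 1) * (ρ - 1) - (ρ + 1) := by nlinarith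
      have a2 : 0 < (2 * ρ + 1) * (ρ - 1) + (ρ + 1) := by nlinarith
      nlinarith [mul_pos a1 a2]
    have e2 : 0 < (2 * ρ - 1) ^ 2 * (ρ - 1) ^ 2 - (ρ - 1) ^ 2 := by
      have a1 : 0 < (2 * ρ - 1) * (ρ - 1) - (ρ - 1) := by nlinarith
      have a2 : 0 < (2 * ρ - 1) * (ρ - 1) + (ρ - 1) := by nlinarith
      nlinarith [mul_pos a1 a2]
    have e3 : 2 * ρ * ((4 * ρ ^ 2 - 4 * x + 1) * (ρ - 1) ^ 2 - (ρ ^ 2 - 2 * x + 1)) =
        (ρ - x) * ((2 * ρ + 1) ^ 2 * (ρ - 1) ^ 2 - (ρ + 1) ^ 2) +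
        (ρ + x) * ((2 * ρ - 1) ^ 2 * (ρ - 1) ^ 2 - (ρ - 1) ^ 2) := by ring
    have e4 : 0 < 2 * ρ * ((4 * ρ ^ 2 - 4 * x + 1) * (ρ - 1) ^ 2 - (ρ ^ 2 - 2 * x + 1)) := by
      rw [e3]
      rcases lt_or_ge x ρ with hx | hx
      · have := mul_pos (sub_pos.mpr hx) e1
        have := mul_nonneg (by linarith : 0 ≤ ρ + x) e2.le
        linarith
      · have := mul_nonneg (by linarith : 0 ≤ ρ - x) e1.le
        have := mul_pos (by linarith : 0 < ρ + x) e2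
        linarith
    have e5 : 0 < (4 * ρ ^ 2 - 4 * x + 1) * (ρ - 1) ^ 2 - (ρ ^ 2 - 2 * x + 1) := by
      by_contra hcon
      push Not at hcon
      have := mul_nonpos_of_nonneg_of_nonpos (by linarith : 0 ≤ 2 * ρ) hcon
      linarith
    linarith
  exact lt_of_pow_lt_pow_left₀ 2 (mul_nonneg (norm_nonneg _) (by linarith)) hsq

end Pool.Agent.Helper64.Parry
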