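import Pool.Agent.Helper64.Parry.Cases

namespace Pool.Agent.Helper64.Parry

open Real

/-- norm of `x z + y` -/
theorem norm_lin_sq {z : ℂ} {r θ : ℝ} (hz : z = (r : ℂ) * Complex.exp (θ * Complex.I)) (x y : ℝ) :
    ‖(x : ℂ) * z + y‖ ^ 2 = x ^ 2 * r ^ 2 + 2 * x * y * r * cos θ + y ^ 2 := by
  have e2 : Complex.exp (θ * Complex.I) = Real.cos θ + Real.sin θ * Complex.I := by
    rw [Complex.exp_mul_I, Complex.ofReal_cos, Complex.ofReal_sin]
  rw [hz, e2, Complex.sq_norm, Complex.normSq_apply]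
  simp only [Complex.add_re, Complex.mul_re, Complex.ofReal_re, Complex.ofReal_im,
    Complex.I_re, Complex.I_im, Complex.add_im, Complex.mul_im]
  have h := Real.sin_sq_add_cos_sq θ
  linear_combination x ^ 2 * r ^ 2 * h

/-- The half criterion for `k = d - 1`: `1 < |z+2| (r^(d-1) - 1)`. -/
theorem not_parry_pred {d : ℕ} (hd : 2 ≤ d) {β r : ℝ} {z : ℂ} (hβ : β ^ d = β + 1)
    (hz : z ^ d = z + 1) (hr1 : 1 < r) (hrβ : r < β) (hnorm : ∀ k : ℕ, ‖z ^ k‖ = r ^ k)
    (h : 1 < ‖z + 2‖ * (r ^ (d - 1) - 1)) : ¬ IsParry (β ^ (d - 1)) := by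
  have hzn : ‖z‖ = r := by simpa using hnorm 1
  apply not_parry_of_half (conj_pow hd hβ hz (d - 1))
  · exact pow_ne_of_norm_lt (by omega) hr1 hrβ (hnorm _)
  · rw [hnorm]; exact one_lt_pow₀ hr1 (by omega)
  · rw [hnorm]
    have hzz : z * z ^ (d - 1) = z + 1 := by
      rw [← pow_succ', ← hz]; congr 1; omega
    have hr0 : 0 < r := by linarith
    have e1 : r * ‖z ^ (d - 1) - 1‖ = 1 := by
      rw [← hzn, ← norm_mul, mul_sub, hzz]; simp
    have e2 : r * ‖2 * z ^ (d - 1) - 1‖ = ‖z + 2‖ := by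
      rw [← hzn, ← norm_mul]
      congr 1
      linear_combination 2 * hzz
    have e3 : r * ‖z ^ (d - 1) - 1‖ < r * (‖2 * z ^ (d - 1) - 1‖ * (r ^ (d - 1) - 1)) := by
      rw [e1, ← mul_assoc, e2]; exact h
    exact lt_of_mul_lt_mul_left e3 hr0.le

theorem case_6_5 {β : ℝ} (hβ1 : 1 < β) (hβ : β ^ 6 = β + 1) : ¬ IsParry (β ^ 5) := by
  obtain ⟨z, r, θ, hr1, hrβ, h1, h2, hzdef, hz, hnorm, hsub, hge, hge'⟩ :=
    exists_conjugate (by norm_num : 4 ≤ 6) hβ1 hβ
  have hπ := Real.pi_pos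
  push_cast at h1 h2
  have hθ0 : 0 < θ := lt_trans (by positivity) h1
  have hrr : 1.09 ≤ r := by
    refine r_ge (by norm_num) hr1 (4013 / 5000) 1.09 (by norm_num)
      (le_trans ?_ (cos_half_ge (d := 6) (by norm_num) hθ0 (by push_cast; exact h2))) hge
      (by norm_num) (by norm_num)
    push_cast
    norm_num
  refine not_parry_pred (d := 6) (by norm_num) hβ hz hr1 hrβ hnorm ?_
  have hcos : 0 ≤ cos θ := by
    apply Real.cos_nonneg_of_neg_pi_div_two_le_of_le (by linarith)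
    have : 2 * π / (6 - 1) ≤ π / 2 := by linarith
    linarith
  have hn := norm_lin_sq hzdef 1 2
  push_cast at hn
  rw [one_mul] at hn
  have hn2 : 2.27 ≤ ‖z + 2‖ := by
    apply le_of_sq_le_sq _ (norm_nonneg _)
    rw [hn]
    nlinarith [mul_nonneg (by linarith : 0 ≤ r) hcos]
  have hr5 : (1.09 : ℝ) ^ 5 ≤ r ^ (6 - 1) := pow_le_pow_left₀ (by norm_num) hrr 5
  have h53 : (0.53 : ℝ) ≤ r ^ (6 - 1) - 1 := by
    have : (1.53 : ℝ) ≤ 1.09 ^ 5 := by norm_num
    linarith
  exact lt_of_lt_of_le (by norm_num) (mul_le_mul hn2 h53 (by norm_num) (norm_nonneg _))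

theorem case_5 {β : ℝ} (hβ1 : 1 < β) (hβ : β ^ 5 = β + 1) (k : ℕ) (hk : 1 ≤ k) :
    ¬ IsParry (β ^ k) := by
  have hπ := Real.pi_pos
  have hπ3 := Real.pi_gt_d2
  have hπ4 := Real.pi_lt_d4
  set b : ℝ := Real.arccos (13 / 85) with hb
  have hcb : cos b = 13 / 85 := Real.cos_arccos (by norm_num) (by norm_num)
  have hsb : sin b = 84 / 85 := by
    rw [hb, Real.sin_arccos]
    rw [Real.sqrt_eq_iff_mul_self_eq (by norm_num) (by norm_num)]
    norm_num
  have hbpi : b ≤ π / 2 := by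
    rw [hb]; exact Real.arccos_le_pi_div_two.mpr (by norm_num)
  have hb0 : 0 ≤ b := Real.arccos_nonneg _
  have ha : 2 * π / 5 < b := by
    by_contra hcon
    push Not at hcon
    have h1 : cos (2 * π / 5) ≤ cos b :=
      Real.cos_le_cos_of_nonneg_of_le_pi hb0 (by linarith) hcon
    have h2 : 1 - (2 * π / 5) ^ 2 / 2 ≤ cos (2 * π / 5) := Real.one_sub_sq_div_two_le_cos
    rw [hcb] at h1
    nlinarith
  have hs2 : sin (2 * b) = 2184 / 7225 := by
    rw [Real.sin_two_mul, hsb, hcb]; norm_num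
  have hc2 : cos (2 * b) = -6887 / 7225 := by
    rw [Real.cos_two_mul, hcb]; norm_num
  have hs4 : sin (4 * b) = 2 * (2184 / 7225) * (-6887 / 7225) := by
    have : 4 * b = 2 * (2 * b) := by ring
    rw [this, Real.sin_two_mul, hs2, hc2]
  have hc4 : cos (4 * b) = 2 * (-6887 / 7225) ^ 2 - 1 := by
    have : 4 * b = 2 * (2 * b) := by ring
    rw [this, Real.cos_two_mul, hc2]
  have hs5 : sin (5 * b) = 2 * (2184 / 7225) * (-6887 / 7225) * (13 / 85) +
      (2 * (-6887 / 7225) ^ 2 - 1) * (84 / 85) := by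
    have : 5 * b = 4 * b + b := by ring
    rw [this, Real.sin_add, hs4, hc4, hsb, hcb]
  obtain ⟨z, r, θ, hr1, hrβ, h1, h2, hzdef, hz, hnorm, hsub, hge, hge'⟩ :=
    exists_conjugate' (by norm_num : 4 ≤ 5) hβ1 hβ (b := b) (by push_cast; exact ha)
      (by push_cast; linarith)
      (by
        push_cast
        have e1 : sin (2 * π - (5 - 1) * b) = -sin (4 * b) := by
          have : 2 * π - (5 - 1) * b = -(4 * b) + 2 * π := by ring
          rw [this, Real.sin_add_two_pi, Real.sin_neg]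
        have e2 : sin (5 * b - 2 * π) = sin (5 * b) := Real.sin_sub_two_pi _
        rw [e1, e2, hsb, hs4, hs5]
        norm_num)
  push_cast at h1
  have hθ0 : 0 < θ := lt_trans (by positivity) h1
  have hc1 : 13 / 85 < cos θ := by
    rw [← hcb]
    exact Real.cos_lt_cos_of_nonneg_of_le_pi hθ0.le (by linarith) h2
  have hc0 : cos θ < 0.3091 := by
    have e1 : cos θ < cos (2 * (π / 5)) := by
      have : 2 * (π / 5) = 2 * π / 5 := by ring
      rw [this]
      exact Real.cos_lt_cos_of_nonneg_of_le_pi (by positivity) (by linarith) h1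
    rw [Real.cos_two_mul, Real.cos_pi_div_five] at e1
    have h5 : (√5) ^ 2 = 5 := Real.sq_sqrt (by norm_num)
    have h50 : 0 ≤ √5 := Real.sqrt_nonneg 5
    have h51 : √5 < 2.2364 := by
      by_contra hcon
      push Not at hcon
      nlinarith
    nlinarith
  set c := cos θ with hc
  have hch : 0.7592 ≤ cos (θ / 2) := by
    have e1 : c = 2 * cos (θ / 2) ^ 2 - 1 := by
      rw [hc]
      have : θ = 2 * (θ / 2) := by ring
      conv_lhs => rw [this]
      rw [Real.cos_two_mul]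
    have e2 : 0 ≤ cos (θ / 2) := by
      apply Real.cos_nonneg_of_neg_pi_div_two_le_of_le <;> linarith
    by_contra hcon
    push Not at hcon
    nlinarith
  have hrr : 1.097 ≤ r :=
    r_ge (by norm_num) hr1 0.7592 1.097 (by norm_num) hch hge (by norm_num) (by norm_num)
  have hβb : β ≤ 1.1674 := beta_le (by norm_num) hβ1 hβ 1.1674 (by norm_num) (by norm_num)
  have hβk : ∀ k : ℕ, β ^ k ≤ (1.1674 : ℝ) ^ k := fun k =>
    pow_le_pow_left₀ (by linarith) hβb k
  have hrk : ∀ k : ℕ, (1.097 : ℝ) ^ k ≤ r ^ k := fun k =>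
    pow_le_pow_left₀ (by norm_num) hrr k
  have hrat : β ^ 1 ≤ r ^ 2 := by
    calc β ^ 1 ≤ 1.1674 := by rw [pow_one]; exact hβb
      _ ≤ 1.097 ^ 2 := by norm_num
      _ ≤ r ^ 2 := hrk 2
  have key : ∀ (k : ℕ) (S W : ℝ), 0 ≤ S → S ≤ sin (k * θ / 2) ^ 2 →
      W ^ 2 ≤ ((1.097 : ℝ) ^ k - 1) ^ 2 + 4 * 1.097 ^ k * S → W ≤ ‖z ^ k - 1‖ := by
    intro k S W hS0 hS hW
    apply le_of_sq_le_sq _ (norm_nonneg _)
    rw [hsub k]
    refine hW.trans ?_
    have a0 : (1 : ℝ) ≤ 1.097 ^ k := one_le_pow₀ (by norm_num)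
    have a1 := hrk k
    have a2 : ((1.097 : ℝ) ^ k - 1) ^ 2 ≤ (r ^ k - 1) ^ 2 :=
      pow_le_pow_left₀ (by linarith) (by linarith) 2
    have a3 : 4 * (1.097 : ℝ) ^ k * S ≤ 4 * r ^ k * sin (k * θ / 2) ^ 2 :=
      mul_le_mul (by linarith) hS hS0 (by linarith)
    linarith
  rcases Nat.lt_or_ge k 6 with h | h
  · interval_cases k
    · -- k = 1
      have hW : 1.23 ≤ ‖z ^ 1 - 1‖ := by
        apply key 1 0.345
        · norm_num
        · have e1 : sin (((1 : ℕ) : ℝ) * θ / 2) ^ 2 = (1 - c) / 2 := by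
            rw [hc]
            have : ((1 : ℕ) : ℝ) * θ / 2 = θ / 2 := by push_cast; ring
            rw [this, Real.sin_sq_eq_half_sub]
            have : 2 * (θ / 2) = θ := by ring
            rw [this]; ring
          rw [e1]; linarith
        · norm_num
      have hb2 := hβk 1
      exact not_parry_star_rat (by norm_num : 2 ≤ 5) hβ1 hβ hz hr1 1 1 2 (hnorm 1) (by norm_num)
        (by norm_num) (by norm_num) hrat (by linarith) 6.9 1.23 (by norm_num) (by linarith)
        (by norm_num) hW (by norm_num)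
    · -- k = 2
      have hW : 2.09 ≤ ‖z ^ 2 - 1‖ := by
        apply key 2 0.904
        · norm_num
        · have e1 : sin (((2 : ℕ) : ℝ) * θ / 2) ^ 2 = 1 - c ^ 2 := by
            rw [hc]
            have : ((2 : ℕ) : ℝ) * θ / 2 = θ := by push_cast; ring
            rw [this, Real.sin_sq]
          rw [e1]; nlinarith
        · norm_num
      have hb2 := hβk 2
      exact not_parry_star_rat (by norm_num : 2 ≤ 5) hβ1 hβ hz hr1 2 1 2 (hnorm 2) (by norm_num)
        (by norm_num) (by norm_num) hrat (by linarith) 3.7 2.09 (by norm_num) (by linarith)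
        (by norm_num) hW (by norm_num)
    · -- k = 3
      have hW : 1.97 ≤ ‖z ^ 3 - 1‖ := by
        apply key 3 0.722
        · norm_num
        · have e1 : sin (((3 : ℕ) : ℝ) * θ / 2) ^ 2 = (1 - (4 * c ^ 3 - 3 * c)) / 2 := by
            rw [hc, Real.sin_sq_eq_half_sub]
            have : 2 * (((3 : ℕ) : ℝ) * θ / 2) = 3 * θ := by push_cast; ring
            rw [this, Real.cos_three_mul]; ring
          rw [e1]
          have : 0 ≤ (c - 13 / 85) * (3 - 4 * (c ^ 2 + c * (13 / 85) + (13 / 85) ^ 2)) := by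
            apply mul_nonneg
            · linarith
            · nlinarith
          nlinarith
        · norm_num
      have hb2 := hβk 3
      exact not_parry_star_rat (by norm_num : 2 ≤ 5) hβ1 hβ hz hr1 3 1 2 (hnorm 3) (by norm_num)
        (by norm_num) (by norm_num) hrat (by linarith) 2.69 1.97 (by norm_num) (by linarith)
        (by norm_num) hW (by norm_num)
    · -- k = 4
      refine not_parry_pred (d := 5) (by norm_num) hβ hz hr1 hrβ hnorm ?_
      have hn := norm_lin_sq hzdef 1 2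
      push_cast at hn
      rw [one_mul] at hn
      have hn2 : 2.42 ≤ ‖z + 2‖ := by
        apply le_of_sq_le_sq _ (norm_nonneg _)
        rw [hn]
        nlinarith
      have hr4 : (1.097 : ℝ) ^ 4 ≤ r ^ (5 - 1) := hrk 4
      have h53 : (0.448 : ℝ) ≤ r ^ (5 - 1) - 1 := by
        have : (1.448 : ℝ) ≤ 1.097 ^ 4 := by norm_num
        linarith
      exact lt_of_lt_of_le (by norm_num) (mul_le_mul hn2 h53 (by norm_num) (norm_nonneg _))
    · -- k = 5 : Z = z + 1
      apply not_parry_of_half (conj_pow (by norm_num) hβ hz 5)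
      · exact pow_ne_of_norm_lt (by norm_num) hr1 hrβ (hnorm _)
      · rw [hnorm]; exact one_lt_pow₀ hr1 (by norm_num)
      · rw [hnorm, hz]
        have e1 : 2 * (z + 1) - 1 = 2 * z + 1 := by ring
        have e2 : z + 1 - 1 = z := by ring
        rw [e1, e2]
        have hzn : ‖z‖ = r := by simpa using hnorm 1
        rw [hzn]
        have hn := norm_lin_sq hzdef 2 1
        push_cast at hn
        have hn2 : 2.5 ≤ ‖2 * z + 1‖ := by
          apply le_of_sq_le_sq _ (norm_nonneg _)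
          rw [hn]
          nlinarith
        have hr4 : (1.097 : ℝ) ^ 5 ≤ r ^ 5 := hrk 5
        have : (0.588 : ℝ) ≤ r ^ 5 - 1 := by
          have : (1.588 : ℝ) ≤ 1.097 ^ 5 := by norm_num
          linarith
        nlinarith
  · apply not_parry_golden_rat (by norm_num : 2 ≤ 5) hβ hz hr1 hrβ k (hnorm k) (by omega)
      1.6181 (by norm_num) (by norm_num)
    calc (1.6181 : ℝ) ≤ 1.097 ^ 6 := by norm_num
      _ ≤ r ^ 6 := hrk 6
      _ ≤ r ^ k := pow_le_pow_right₀ hr1.le h

end Pool.Agent.Helper64.Parry
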