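import Pool.Agent.Helper64.Parry.Basic

/-!
Conjugates of powers of roots of `x^d - x - 1`.
-/

namespace Pool.Agent.Helper64.Parry

open Polynomial

/-- Transfer of polynomial relations between roots of `x^d - x - 1` and their powers. -/
theorem conj_pow {d : ℕ} (hd : 2 ≤ d) {β : ℝ} {z : ℂ} (hβ : β ^ d = β + 1) (hz : z ^ d = z + 1)
    (k : ℕ) : Conj (β ^ k) (z ^ k) := by
  intro p hp
  set f : ℚ[X] := X ^ d - X - 1 with hf
  have hirr : Irreducible f := X_pow_sub_X_sub_one_irreducible_rat (by omega)
  have hmonic : f.Monic := by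
    rw [hf, sub_sub]
    apply monic_X_pow_sub
    have : (X + 1 : ℚ[X]).degree = 1 := by
      have := degree_X_add_C (1 : ℚ)
      simpa using this
    rw [this]
    exact_mod_cast (by omega : 1 < d)
  have hroot : aeval β f = 0 := by
    rw [hf]; simp [hβ]
  have hmin : f = minpoly ℚ β := minpoly.eq_of_irreducible_of_monic hirr hroot hmonic
  -- the polynomial p(X^k)
  set g : ℚ[X] := (p.map (Int.castRingHom ℚ)).comp (X ^ k) with hg
  have haeval : ∀ {A : Type} [CommRing A] [Algebra ℚ A] (x : A),
      aeval x g = aeval (x ^ k) p := by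
    intro A _ _ x
    rw [hg, aeval_comp, aeval_X_pow]
    have h1 : aeval (x ^ k) (p.map (Int.castRingHom ℚ)) = aeval (x ^ k) p := by
      have : (Int.castRingHom ℚ) = algebraMap ℤ ℚ := rfl
      rw [this, aeval_map_algebraMap]
    exact h1
  have hgβ : aeval β g = 0 := by rw [haeval]; exact hp
  have hdvd : f ∣ g := by rw [hmin]; exact minpoly.dvd ℚ β hgβ
  obtain ⟨c, hc⟩ := hdvd
  have hgz : aeval z g = 0 := by
    rw [hc, map_mul]
    have : aeval z f = 0 := by rw [hf]; simp [hz]
    rw [this, zero_mul]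
  rw [haeval] at hgz
  exact hgz

end Pool.Agent.Helper64.Parry
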