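import Pool.Agent.Helper64.Parry.Star
import Pool.Agent.Helper64.Parry.Root

namespace Pool.Agent.Helper64.Parry

open Real

/-- the power `β^k` and its conjugate satisfy `β^k ≠ z^k` -/
theorem pow_ne_of_norm_lt {β r : ℝ} {z : ℂ} {k : ℕ} (hk : 1 ≤ k) (hr : 1 < r) (hrβ : r < β)
    (hz : ‖z ^ k‖ = r ^ k) : z ^ k ≠ ((β ^ k : ℝ) : ℂ) := by
  intro h
  rw [h, Complex.norm_real, Real.norm_eq_abs, abs_of_pos (pow_pos (by linarith) k)] at hz
  have : r ^ k < β ^ k := pow_lt_pow_left₀ hrβ (by linarith) (by omega)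
  linarith

/-- Star criterion with rational exponent `s = p/q`, `β^p ≤ r^q`, `X ≤ β^k/(β^k-1)`,
`W ≤ |z^k-1|`. -/
theorem not_parry_star_rat {d : ℕ} (hd : 2 ≤ d) {β r : ℝ} {z : ℂ} (hβ1 : 1 < β)
    (hβ : β ^ d = β + 1) (hz : z ^ d = z + 1) (hr1 : 1 < r)
    (k p q : ℕ) (hzk : ‖z ^ k‖ = r ^ k) (hk : 1 ≤ k) (hp : 1 ≤ p) (hpq : p ≤ q)
    (hrat : β ^ p ≤ r ^ q) (hB2 : β ^ k < 2) (X W : ℝ) (hX1 : 0 < X)
    (hX : X * (β ^ k - 1) ≤ β ^ k)
    (hW0 : 0 < W) (hW : W ≤ ‖z ^ k - 1‖) (hfin : (1 + 1 / W) ^ q < X ^ p) :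
    ¬ IsParry (β ^ k) := by
  have hq0 : (0 : ℝ) < q := by exact_mod_cast (by omega : 0 < q)
  have hp0 : (0 : ℝ) < p := by exact_mod_cast (by omega : 0 < p)
  have hβ0 : 0 < β := by linarith
  have hr0 : 0 < r := by linarith
  have hB1 : 1 < β ^ k := one_lt_pow₀ hβ1 (by omega)
  have hb : 0 < β ^ k - 1 := by linarith
  apply not_parry_of_star (conj_pow hd hβ hz k) hB1 hB2 (s := (p : ℝ) / q)
  · positivity
  · rw [div_le_one hq0]; exact_mod_cast hpq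
  · rw [hzk]
    -- β^{k p/q} ≤ r^k
    have h1 : β ^ ((p : ℝ) / q) ≤ r := by
      have h2 : (β ^ p) ^ ((1 : ℝ) / q) ≤ (r ^ q) ^ ((1 : ℝ) / q) :=
        Real.rpow_le_rpow (by positivity) hrat (by positivity)
      rw [← Real.rpow_natCast r q, ← Real.rpow_mul hr0.le, ← Real.rpow_natCast β p,
        ← Real.rpow_mul hβ0.le] at h2
      rw [mul_one_div, mul_one_div_cancel hq0.ne', Real.rpow_one] at h2
      exact h2
    calc (β ^ k) ^ ((p : ℝ) / q) = (β ^ ((p : ℝ) / q)) ^ k := by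
          rw [← Real.rpow_natCast β k, ← Real.rpow_mul hβ0.le, ← Real.rpow_natCast,
            ← Real.rpow_mul hβ0.le, mul_comm]
      _ ≤ r ^ k := pow_le_pow_left₀ (Real.rpow_nonneg hβ0.le _) h1 k
  · have hXle : X ≤ β ^ k / (β ^ k - 1) := by rw [le_div_iff₀ hb]; exact hX
    have h1 : 1 + 1 / W < (β ^ k / (β ^ k - 1)) ^ ((p : ℝ) / q) := by
      have h2 : 1 + 1 / W < X ^ ((p : ℝ) / q) := by
        have h3 : ((1 + 1 / W) ^ q) ^ ((1 : ℝ) / q) < (X ^ p) ^ ((1 : ℝ) / q) :=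
          Real.rpow_lt_rpow (by positivity) hfin (by positivity)
        rw [← Real.rpow_natCast (1 + 1 / W) q, ← Real.rpow_mul (by positivity),
          ← Real.rpow_natCast X p, ← Real.rpow_mul hX1.le, mul_one_div_cancel hq0.ne',
          Real.rpow_one, mul_one_div] at h3
        exact h3
      exact lt_of_lt_of_le h2 (Real.rpow_le_rpow hX1.le hXle (by positivity))
    have h2 : 1 < W * ((β ^ k / (β ^ k - 1)) ^ ((p : ℝ) / q) - 1) := by
      have h3 : 1 / W < (β ^ k / (β ^ k - 1)) ^ ((p : ℝ) / q) - 1 := by linarith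
      rw [div_lt_iff₀ hW0] at h3
      linarith
    have h3 : 0 < (β ^ k / (β ^ k - 1)) ^ ((p : ℝ) / q) - 1 := by
      have : 0 < 1 / W := by positivity
      linarith
    exact lt_of_lt_of_le h2 (mul_le_mul_of_nonneg_right hW h3.le)

/-- Golden criterion, numeric version. -/
theorem not_parry_golden_rat {d : ℕ} (hd : 2 ≤ d) {β r : ℝ} {z : ℂ} (hβ : β ^ d = β + 1)
    (hz : z ^ d = z + 1) (hr1 : 1 < r) (hrβ : r < β) (k : ℕ) (hzk : ‖z ^ k‖ = r ^ k) (hk : 1 ≤ k)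
    (G : ℝ) (hG1 : 1 ≤ G) (hG : G + 1 < G ^ 2) (hGr : G ≤ r ^ k) :
    ¬ IsParry (β ^ k) := by
  apply not_parry_of_golden (conj_pow hd hβ hz k)
  · exact pow_ne_of_norm_lt hk hr1 hrβ hzk
  · rw [hzk]; exact one_lt_pow₀ hr1 (by omega)
  · rw [hzk]
    nlinarith

end Pool.Agent.Helper64.Parry
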