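import Mathlib

namespace Pool.Agent.Helper64.Parry

open Real

/-- The non-real root of `x^4 - x - 1` in the upper half plane, with enclosures. -/
theorem root4 : ∃ (z : ℂ) (r : ℝ), z ^ 4 = z + 1 ∧ ‖z‖ = r ∧ 1.063336 < r ∧ r < 1.063338 ∧
    |z.re + 0.248126| < 0.000002 ∧ |z.im - 1.033982| < 0.000002 ∧
    |(z ^ 2).re + 1.007552| < 0.00001 ∧ |(z ^ 2).im + 0.513116| < 0.00001 ∧
    |(z ^ 3).re - 0.780553| < 0.00002 ∧ |(z ^ 3).im + 0.914474| < 0.00002 := by
  -- p
  obtain ⟨p, ⟨hp1, hp2⟩, hp⟩ : ∃ p ∈ Set.Icc (0.496252 : ℝ) 0.496253, p ^ 6 + 4 * p ^ 2 - 1 = 0 := by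
    have hc : ContinuousOn (fun p : ℝ => p ^ 6 + 4 * p ^ 2 - 1) (Set.Icc 0.496252 0.496253) := by
      fun_prop
    have := intermediate_value_Icc (by norm_num : (0.496252 : ℝ) ≤ 0.496253) hc
    exact this ⟨by norm_num, by norm_num⟩
  have hp0 : 0 < p := by linarith
  set q : ℝ := (p ^ 2 + 1 / p) / 2 with hq
  have hpinv1 : 2.015101 < 1 / p := by
    rw [lt_div_iff₀ hp0]; nlinarith
  have hpinv2 : 1 / p < 2.015106 := by
    rw [div_lt_iff₀ hp0]; nlinarith
  have hpp1 : 0.246266 < p ^ 2 := by nlinarith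
  have hpp2 : p ^ 2 < 0.2462671 := by nlinarith
  have hq1 : 1.1306835 < q := by rw [hq]; linarith
  have hq2 : q < 1.1306866 := by rw [hq]; linarith
  have hpq : 2 * p * q = p ^ 3 + 1 := by rw [hq]; field_simp
  have hqq : q ^ 2 - p ^ 2 * q = 1 := by
    -- q (q - p²) = ((1/p)² - p⁴)/4 = (1 - p^6)/(4p²) = 1
    have h1 : 4 * p ^ 2 * (q ^ 2 - p ^ 2 * q) = 4 * p ^ 2 := by
      have : 4 * p ^ 2 * (q ^ 2 - p ^ 2 * q) = (2 * p * q) ^ 2 - 2 * p ^ 3 * (2 * p * q) := by ring
      rw [this, hpq]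
      linear_combination -hp
    have h2 : (4 * p ^ 2) ≠ 0 := by positivity
    exact mul_left_cancel₀ h2 (by rw [h1, mul_one])
  set y : ℝ := Real.sqrt (q - p ^ 2 / 4) with hy
  have hyy : y ^ 2 = q - p ^ 2 / 4 := by
    rw [hy, Real.sq_sqrt]; nlinarith
  have hy0 : 0 ≤ y := Real.sqrt_nonneg _
  have hy1 : 1.0339805 < y := by
    by_contra hcon
    push Not at hcon
    nlinarith
  have hy2 : y < 1.0339835 := by
    by_contra hcon
    push Not at hcon
    nlinarith
  set z : ℂ := ⟨-(p / 2), y⟩ with hz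
  have hzre : z.re = -(p / 2) := rfl
  have hzim : z.im = y := rfl
  have hz2 : z ^ 2 = -(p : ℂ) * z - q := by
    apply Complex.ext
    · simp only [pow_two, Complex.mul_re, Complex.sub_re, Complex.neg_re, Complex.neg_im,
        Complex.ofReal_re, Complex.ofReal_im, hzre, hzim]
      nlinarith
    · simp only [pow_two, Complex.mul_im, Complex.sub_im, Complex.neg_re, Complex.neg_im,
        Complex.ofReal_re, Complex.ofReal_im, hzre, hzim]
      ring
  have hz4 : z ^ 4 = z + 1 := by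
    have hpqC : 2 * (p : ℂ) * q = p ^ 3 + 1 := by exact_mod_cast hpq
    have hqqC : (q : ℂ) ^ 2 - p ^ 2 * q = 1 := by exact_mod_cast hqq
    have : z ^ 4 = (z ^ 2) ^ 2 := by ring
    rw [this, hz2]
    linear_combination (p : ℂ) ^ 2 * hz2 + z * hpqC + hqqC
  have hnorm : ‖z‖ ^ 2 = q := by
    rw [Complex.sq_norm, Complex.normSq_apply, hzre, hzim]
    nlinarith
  have hn0 := norm_nonneg z
  refine ⟨z, ‖z‖, hz4, rfl, ?_, ?_, ?_, ?_, ?_, ?_, ?_, ?_⟩
  · by_contra hcon
    push Not at hcon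
    nlinarith
  · by_contra hcon
    push Not at hcon
    nlinarith
  · rw [hzre, abs_lt]; constructor <;> linarith
  · rw [hzim, abs_lt]; constructor <;> linarith
  · have : (z ^ 2).re = (p / 2) ^ 2 - y ^ 2 := by
      rw [pow_two, Complex.mul_re, hzre, hzim]; ring
    rw [this, abs_lt]; constructor <;> nlinarith
  · have : (z ^ 2).im = -(p * y) := by
      rw [pow_two, Complex.mul_im, hzre, hzim]; ring
    rw [this, abs_lt]; constructor <;> nlinarith
  · have : (z ^ 3).re = -(p / 2) ^ 3 + 3 * (p / 2) * y ^ 2 := by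
      rw [pow_succ, pow_two, Complex.mul_re, Complex.mul_re, Complex.mul_im, hzre, hzim]; ring
    have e : -(p / 2) ^ 3 + 3 * (p / 2) * y ^ 2 = (3 * (p * q) - p * p ^ 2) / 2 := by
      rw [hyy]; ring
    have e2 : p * q = (p * p ^ 2 + 1) / 2 := by linarith
    rw [this, e, e2, abs_lt]; constructor <;> nlinarith
  · have : (z ^ 3).im = y * (3 * (p / 2) ^ 2 - y ^ 2) := by
      rw [pow_succ, pow_two, Complex.mul_im, Complex.mul_re, Complex.mul_im, hzre, hzim]; ring
    have e : y * (3 * (p / 2) ^ 2 - y ^ 2) = y * (p ^ 2 - q) := by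
      rw [hyy]; ring
    rw [this, e, abs_lt]
    have a1 : 0.884416 < q - p ^ 2 := by linarith
    have a2 : q - p ^ 2 < 0.884421 := by linarith
    constructor <;> nlinarith

end Pool.Agent.Helper64.Parry
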