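import Pool.Agent.Helper64.Parry.Four
import Pool.Agent.Helper64.Parry.Crit
import Pool.Agent.Helper64.Parry.Root4

namespace Pool.Agent.Helper64.Parry

open Real

/-- escape criterion with numerical data -/
theorem not_parry_escape_num {β r : ℝ} {z : ℂ} (hβ1 : 1 < β) (hβ : β ^ 4 = β + 1)
    (hz : z ^ 4 = z + 1) (_hr1 : 1 < r) (hn : ‖z‖ = r) (k n : ℕ) (hk : 1 ≤ k) (hn1 : 1 ≤ n)
    (w : ℂ) (hw : corb (β ^ k) (z ^ k) n = w) (F : ℤ) (hF : β ^ k < F + 1)
    (rk a b : ℝ) (hrk : 1 < rk) (hrk' : rk ≤ r ^ k) (ha0 : 0 ≤ a) (hb0 : 0 ≤ b)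
    (ha : a ≤ |w.re|) (hb : b ≤ |w.im|)
    (hfin : (F : ℝ) ^ 2 < (a ^ 2 + b ^ 2) * (rk - 1) ^ 2) (_hF0 : 0 ≤ F) :
    ¬ IsParry (β ^ k) := by
  have hzk : ‖z ^ k‖ = r ^ k := by rw [norm_pow, hn]
  have hB1 : 1 < β ^ k := one_lt_pow₀ hβ1 (by omega)
  apply not_parry_of_escape (conj_pow (by norm_num) hβ hz k) hB1
    (by rw [hzk]; linarith) n hn1
  rw [hw, hzk]
  have hfl : (⌊β ^ k⌋ : ℝ) ≤ F := by
    have : ⌊β ^ k⌋ < F + 1 := by
      rw [Int.floor_lt]; push_cast; exact hF
    exact_mod_cast (by omega : ⌊β ^ k⌋ ≤ F)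
  have hwn : a ^ 2 + b ^ 2 ≤ ‖w‖ ^ 2 := by
    rw [Complex.sq_norm, Complex.normSq_apply]
    have h1 : a ^ 2 ≤ |w.re| ^ 2 := pow_le_pow_left₀ ha0 ha 2
    have h2 : b ^ 2 ≤ |w.im| ^ 2 := pow_le_pow_left₀ hb0 hb 2
    rw [sq_abs] at h1 h2
    nlinarith
  have h3 : (rk - 1) ^ 2 ≤ (r ^ k - 1) ^ 2 := pow_le_pow_left₀ (by linarith) (by linarith) 2
  have h4 : (F : ℝ) ^ 2 < (‖w‖ * (r ^ k - 1)) ^ 2 := by
    rw [mul_pow]
    refine lt_of_lt_of_le hfin ?_
    exact mul_le_mul hwn h3 (by positivity) (by positivity)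
  have h5 : (F : ℝ) < ‖w‖ * (r ^ k - 1) :=
    lt_of_pow_lt_pow_left₀ 2 (mul_nonneg (norm_nonneg _) (by linarith)) h4
  linarith

theorem case_4 {β : ℝ} (hβ1 : 1 < β) (hβ : β ^ 4 = β + 1) (k : ℕ) (hk : 1 ≤ k) :
    ¬ IsParry (β ^ k) := by
  have u0 : β < 1.22074409 := by
    by_contra hcon
    push Not at hcon
    have h1 : (1.22074409 : ℝ) ^ 3 ≤ β ^ 3 := pow_le_pow_left₀ (by norm_num) hcon 3
    nlinarith [mul_le_mul h1 hcon (by norm_num) (by positivity)]
  have l0 : 1.22074408 < β := by
    by_contra hcon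
    push Not at hcon
    have h1 : β ^ 3 ≤ (1.22074408 : ℝ) ^ 3 := pow_le_pow_left₀ (by linarith) hcon 3
    have h2 : β ^ 4 = β ^ 3 * β := by ring
    have h3 : β * (β ^ 3 - 1) = 1 := by linarith
    have h4 : β ^ 3 - 1 ≤ 0.8191725 := by
      have : (1.22074408 : ℝ) ^ 3 ≤ 1.8191725 := by norm_num
      linarith
    have h5 : 0 < β ^ 3 - 1 := by
      by_contra hc
      push Not at hc
      nlinarith
    nlinarith
  have u1 : β < 1.2207441 := by linarith
  have l1 : 1.2207440 < β := by linarith
  have l2 : 1.4902161 < β ^ 2 := by nlinarith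
  have u2 : β ^ 2 < 1.4902163 := by nlinarith
  have l3 : 1.8191723 < β ^ 3 := by
    have : β ^ 3 = β ^ 2 * β := by ring
    rw [this]; nlinarith
  have u3 : β ^ 3 < 1.8191727 := by
    have : β ^ 3 = β ^ 2 * β := by ring
    rw [this]; nlinarith
  obtain ⟨z, r, hz, hn, r1, r2, x1, y1, x2, y2, x3, y3⟩ := root4
  rw [abs_lt] at x1 y1 x2 y2 x3 y3
  have hr1 : 1 < r := by linarith
  have hrk : ∀ k : ℕ, (1.063336 : ℝ) ^ k ≤ r ^ k := fun k =>
    pow_le_pow_left₀ (by norm_num) r1.le k
  have hβk : ∀ k : ℕ, β ^ k ≤ (1.2207441 : ℝ) ^ k := fun k =>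
    pow_le_pow_left₀ (by linarith) u1.le k
  have hnormk : ∀ k : ℕ, ‖z ^ k‖ = r ^ k := fun k => by rw [norm_pow, hn]
  rcases Nat.lt_or_ge k 8 with h | h
  · interval_cases k
    · -- k = 1
      apply not_parry_star_rat (by norm_num : 2 ≤ 4) hβ1 hβ hz hr1 1 3 10 (hnormk 1) (by norm_num)
        (by norm_num) (by norm_num) _ (by linarith) 5.53 1.62 (by norm_num) _ (by norm_num) _
        (by norm_num)
      · calc β ^ 3 ≤ 1.8191727 := u3.le
          _ ≤ 1.063336 ^ 10 := by norm_num
          _ ≤ r ^ 10 := hrk 10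
      · linarith
      · apply le_of_sq_le_sq _ (norm_nonneg _)
        rw [pow_one, Complex.sq_norm, Complex.normSq_apply, Complex.sub_re, Complex.sub_im,
          Complex.one_re, Complex.one_im]
        nlinarith
    · -- k = 2
      have hw := corb4_2 hβ hz l1 u1 l2 u2 l3 u3
      apply not_parry_escape_num hβ1 hβ hz hr1 hn 2 10 (by norm_num) (by norm_num) _ hw 1
        (by push_cast; linarith [hβk 2]) (1.063336 ^ 2) 4.717 6.47 (by norm_num) (hrk 2) (by norm_num)
        (by norm_num) _ _ (by norm_num) (by norm_num)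
      · rw [le_abs]; right
        simp only [Complex.add_re, Complex.mul_re, Complex.neg_re, Complex.neg_im,
          Complex.re_ofNat, Complex.im_ofNat]
        linarith
      · rw [le_abs]; right
        simp only [Complex.add_im, Complex.mul_im, Complex.neg_re, Complex.neg_im,
          Complex.re_ofNat, Complex.im_ofNat]
        linarith
    · -- k = 3
      have hw := corb4_3 hβ hz l1 u1 l2 u2 l3 u3
      apply not_parry_escape_num hβ1 hβ hz hr1 hn 3 7 (by norm_num) (by norm_num) _ hw 1
        (by push_cast; linarith [hβk 3]) (1.063336 ^ 3) 4.824 1.8366 (by norm_num) (hrk 3)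
        (by norm_num) (by norm_num) _ _ (by norm_num) (by norm_num)
      · rw [le_abs]; left
        simp only [Complex.add_re, Complex.mul_re, Complex.neg_re, Complex.neg_im,
          Complex.re_ofNat, Complex.im_ofNat, Complex.one_re]
        linarith
      · rw [le_abs]; right
        simp only [Complex.add_im, Complex.mul_im, Complex.neg_re, Complex.neg_im,
          Complex.re_ofNat, Complex.im_ofNat, Complex.one_im]
        linarith
    · -- k = 4
      have hw := corb4_4 hβ hz l1 u1 l2 u2 l3 u3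
      have hb4 := hβk 4
      norm_num at hb4
      apply not_parry_escape_num hβ1 hβ hz hr1 hn 4 7 (by norm_num) (by norm_num) _ hw 2
        (by push_cast; linarith) (1.063336 ^ 4) 1.574 8.426 (by norm_num) (hrk 4)
        (by norm_num) (by norm_num) _ _ (by norm_num) (by norm_num)
      · rw [le_abs]; right
        simp only [Complex.add_re, Complex.mul_re, Complex.neg_re, Complex.neg_im,
          Complex.re_ofNat, Complex.im_ofNat, Complex.one_re]
        linarith
      · rw [le_abs]; left
        simp only [Complex.add_im, Complex.mul_im, Complex.neg_re, Complex.neg_im,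
          Complex.re_ofNat, Complex.im_ofNat, Complex.one_im]
        linarith
    · -- k = 5
      have hw := corb4_5 hβ hz l1 u1 l2 u2 l3 u3
      have hb4 := hβk 5
      norm_num at hb4
      apply not_parry_escape_num hβ1 hβ hz hr1 hn 5 3 (by norm_num) (by norm_num) _ hw 2
        (by push_cast; linarith) (1.063336 ^ 5) 4.312 4.417 (by norm_num) (hrk 5)
        (by norm_num) (by norm_num) _ _ (by norm_num) (by norm_num)
      · rw [le_abs]; right
        simp only [Complex.add_re, Complex.mul_re, Complex.neg_re, Complex.neg_im,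
          Complex.re_ofNat, Complex.im_ofNat, Complex.one_re]
        linarith
      · rw [le_abs]; left
        simp only [Complex.add_im, Complex.mul_im, Complex.neg_re, Complex.neg_im,
          Complex.re_ofNat, Complex.im_ofNat, Complex.one_im]
        linarith
    · -- k = 6
      have hw := corb4_6 hβ hz l1 u1 l2 u2 l3 u3
      have hb4 := hβk 6
      norm_num at hb4
      apply not_parry_escape_num hβ1 hβ hz hr1 hn 6 3 (by norm_num) (by norm_num) _ hw 3
        (by push_cast; linarith) (1.063336 ^ 6) 7.562 2.171 (by norm_num) (hrk 6)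
        (by norm_num) (by norm_num) _ _ (by norm_num) (by norm_num)
      · rw [le_abs]; left
        simp only [Complex.add_re, Complex.mul_re, Complex.neg_re, Complex.neg_im,
          Complex.re_ofNat, Complex.im_ofNat, Complex.one_re]
        linarith
      · rw [le_abs]; left
        simp only [Complex.add_im, Complex.mul_im, Complex.neg_re, Complex.neg_im,
          Complex.re_ofNat, Complex.im_ofNat, Complex.one_im]
        linarith
    · -- k = 7
      have hw := corb4_7 hβ hz l1 u1 l2 u2 l3 u3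
      have hb4 := hβk 7
      norm_num at hb4
      apply not_parry_escape_num hβ1 hβ hz hr1 hn 7 4 (by norm_num) (by norm_num) _ hw 4
        (by push_cast; linarith) (1.063336 ^ 7) 10.818 1.651 (by norm_num) (hrk 7)
        (by norm_num) (by norm_num) _ _ (by norm_num) (by norm_num)
      · rw [le_abs]; right
        simp only [Complex.add_re, Complex.mul_re, Complex.neg_re, Complex.neg_im,
          Complex.re_ofNat, Complex.im_ofNat, Complex.one_re]
        linarith
      · rw [le_abs]; right
        simp only [Complex.add_im, Complex.mul_im, Complex.neg_re, Complex.neg_im,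
          Complex.re_ofNat, Complex.im_ofNat, Complex.one_im]
        linarith
  · apply not_parry_golden_rat (by norm_num : 2 ≤ 4) hβ hz hr1 (by linarith) k (hnormk k) (by omega)
      1.6181 (by norm_num) (by norm_num)
    calc (1.6181 : ℝ) ≤ 1.063336 ^ 8 := by norm_num
      _ ≤ r ^ 8 := hrk 8
      _ ≤ r ^ k := pow_le_pow_right₀ hr1.le h

end Pool.Agent.Helper64.Parry
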