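import Pool.Agent.Helper64.Parry.RootSign

namespace Pool.Agent.Helper64.Parry

open Real

/-- The relevant conjugate, with all estimates used later. The right endpoint `b` of the
localisation of its argument is a parameter. -/
theorem exists_conjugate' {d : ℕ} (hd : 4 ≤ d) {β : ℝ} (hβ1 : 1 < β) (hβ : β ^ d = β + 1)
    {b : ℝ} (hab : 2 * π / d < b) (hdb : (d - 1) * b ≤ 2 * π)
    (hFb : Real.sin b * Real.sin (2 * Real.pi - (d - 1) * b) ^ (d - 1) <
      Real.sin (d * b - 2 * Real.pi) ^ d) :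
    ∃ (z : ℂ) (r θ : ℝ), 1 < r ∧ r < β ∧ 2 * π / d < θ ∧ θ < b ∧
      z = (r : ℂ) * Complex.exp (θ * Complex.I) ∧
      z ^ d = z + 1 ∧ (∀ k : ℕ, ‖z ^ k‖ = r ^ k) ∧
      (∀ k : ℕ, ‖z ^ k - 1‖ ^ 2 = (r ^ k - 1) ^ 2 + 4 * r ^ k * sin (k * θ / 2) ^ 2) ∧
      (1 + r) * cos (θ / 2) ≤ r ^ d ∧ β ^ (d - 1) * cos (θ / 2) ≤ r ^ (d - 1) := by
  have hd' : (4 : ℝ) ≤ d := by exact_mod_cast hd
  have hd0 : (0 : ℝ) < d := by linarith
  have hd1 : (0 : ℝ) < (d : ℝ) - 1 := by linarith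
  have hπ := Real.pi_pos
  set a : ℝ := 2 * π / d with ha
  have hda : d * a = 2 * π := by rw [ha]; field_simp
  have ha0 : 0 < a := by rw [ha]; positivity
  have hb0 : 0 < b := ha0.trans hab
  have hapi : a ≤ π / 2 := by
    rw [ha, div_le_div_iff₀ hd0 (by norm_num)]; nlinarith
  have hbpi : b < π := by nlinarith
  obtain ⟨θ, r, h1, h2, hr, hrd, hz⟩ := exists_root_of_sign (d := d) (by omega) hab.le
    (by
      intro θ h1 h2
      apply Real.sin_pos_of_pos_of_lt_pi
      · have : (d - 1) * θ < (d - 1) * b := mul_lt_mul_of_pos_left h2 hd1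
        linarith
      · have h3 : d * a ≤ d * θ := mul_le_mul_of_nonneg_left h1 hd0.le
        have h4 : θ < π := by linarith
        -- 2π - (d-1)θ = 2π - dθ + θ ≤ θ < π
        nlinarith)
    (by
      rw [hda, sub_self, Real.sin_zero, zero_pow (by omega)]
      apply mul_nonneg
      · exact (Real.sin_pos_of_pos_of_lt_pi ha0 (by linarith)).le
      · apply pow_nonneg
        have : 2 * π - (d - 1) * a = a := by linarith
        rw [this]
        exact (Real.sin_pos_of_pos_of_lt_pi ha0 (by linarith)).le)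
    hFb
  have hψpos : 0 < 2 * π - (d - 1) * θ := by
    have : (d - 1) * θ < (d - 1) * b := mul_lt_mul_of_pos_left h2 hd1
    linarith
  have hψlt : 2 * π - (d - 1) * θ ≤ θ := by
    have h3 : d * a ≤ d * θ := mul_le_mul_of_nonneg_left h1 hd0.le
    linarith
  have hsψ : 0 < sin (2 * π - (d - 1) * θ) :=
    Real.sin_pos_of_pos_of_lt_pi hψpos (by linarith)
  have hsθ : 0 < sin θ := Real.sin_pos_of_pos_of_lt_pi (by linarith) (by linarith)
  -- θ ≠ a
  have hθa : a < θ := by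
    rcases h1.eq_or_lt with h | h
    · exfalso
      have e1 : d * θ - 2 * π = 0 := by rw [← h]; linarith
      rw [e1, Real.sin_zero, zero_div] at hr
      rw [hr, zero_pow (by omega)] at hrd
      have : 0 < sin θ / sin (2 * π - (d - 1) * θ) := div_pos hsθ hsψ
      linarith
    · exact h
  have hφpos : 0 < d * θ - 2 * π := by
    have h3 : d * a < d * θ := mul_lt_mul_of_pos_left hθa hd0
    linarith
  have hφlt : d * θ - 2 * π < θ := by linarith
  have hr0 : 0 < r := by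
    rw [hr]
    exact div_pos (Real.sin_pos_of_pos_of_lt_pi hφpos (by linarith)) hsψ
  -- sin ψ < sin θ
  have hsin : sin (2 * π - (d - 1) * θ) < sin θ := by
    have hψθ : 2 * π - (d - 1) * θ < θ := by linarith
    rcases le_or_gt θ (π / 2) with h | h
    · exact Real.sin_lt_sin_of_lt_of_le_pi_div_two (by linarith) h hψθ
    · rw [← Real.sin_pi_sub θ]
      apply Real.sin_lt_sin_of_lt_of_le_pi_div_two (by linarith) (by linarith)
      -- ψ < π - θ iff π < (d-2) θ
      have : π < (d - 2) * θ := by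
        have h3 : (d - 2) * a < (d - 2) * θ := mul_lt_mul_of_pos_left hθa (by linarith)
        have h4 : π ≤ (d - 2) * a := by
          have h5 : (d - 2) * a = 2 * π - 2 * a := by linarith
          rw [h5]; linarith
        linarith
      linarith
  have hr1 : 1 < r := by
    by_contra hcon
    push Not at hcon
    have h3 : r ^ d ≤ 1 := pow_le_one₀ hr0.le hcon
    rw [hrd, div_le_one hsψ] at h3
    linarith
  set z : ℂ := (r : ℂ) * Complex.exp (θ * Complex.I) with hzdef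
  have hznorm : ‖z‖ = r := by
    rw [hzdef, norm_mul, Complex.norm_exp_ofReal_mul_I, mul_one, Complex.norm_real,
      Real.norm_eq_abs, abs_of_pos hr0]
  have hnormk : ∀ k : ℕ, ‖z ^ k‖ = r ^ k := fun k => by rw [norm_pow, hznorm]
  have hsubk : ∀ k : ℕ, ‖z ^ k - 1‖ ^ 2 = (r ^ k - 1) ^ 2 + 4 * r ^ k * sin (k * θ / 2) ^ 2 := by
    intro k
    have e1 : z ^ k = ((r ^ k : ℝ) : ℂ) * (Complex.exp (((k * θ : ℝ) : ℂ) * Complex.I)) := by
      rw [hzdef, mul_pow, ← Complex.exp_nat_mul]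
      push_cast
      congr 2
      ring
    have e2 : Complex.exp (((k * θ : ℝ) : ℂ) * Complex.I) =
        Real.cos (k * θ) + Real.sin (k * θ) * Complex.I := by
      rw [Complex.exp_mul_I, Complex.ofReal_cos, Complex.ofReal_sin]
    rw [e1, e2, Complex.sq_norm, Complex.normSq_apply]
    simp only [Complex.add_re, Complex.mul_re, Complex.ofReal_re, Complex.ofReal_im,
      Complex.I_re, Complex.I_im, Complex.one_re, Complex.add_im, Complex.mul_im,
      Complex.one_im, Complex.sub_re, Complex.sub_im]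
    have e3 : cos (k * θ) = 1 - 2 * sin (k * θ / 2) ^ 2 := by
      have : (k * θ : ℝ) = 2 * (k * θ / 2) := by ring
      rw [this, Real.cos_two_mul, Real.cos_sq']
      ring_nf
    have e4 : sin (k * θ) ^ 2 = 1 - cos (k * θ) ^ 2 := by
      rw [Real.sin_sq]
    have e5 : (r ^ k * cos (k * θ) - 1) ^ 2 + (r ^ k * sin (k * θ)) ^ 2 =
        (r ^ k) ^ 2 - 2 * r ^ k * cos (k * θ) + 1 := by
      rw [mul_pow (r ^ k) (sin (k * θ)), e4]; ring
    rw [e3] at e5
    rw [e3]
    linear_combination e5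
  -- |z+1|^2
  have hz1 : ‖z + 1‖ ^ 2 = (r - 1) ^ 2 + 4 * r * cos (θ / 2) ^ 2 := by
    have e2 : Complex.exp (θ * Complex.I) = Real.cos θ + Real.sin θ * Complex.I := by
      rw [Complex.exp_mul_I, Complex.ofReal_cos, Complex.ofReal_sin]
    rw [hzdef, e2, Complex.sq_norm, Complex.normSq_apply]
    simp only [Complex.add_re, Complex.mul_re, Complex.ofReal_re, Complex.ofReal_im,
      Complex.I_re, Complex.I_im, Complex.one_re, Complex.add_im, Complex.mul_im,
      Complex.one_im]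
    have e3 : cos θ = 2 * cos (θ / 2) ^ 2 - 1 := by
      have : θ = 2 * (θ / 2) := by ring
      conv_lhs => rw [this]
      rw [Real.cos_two_mul]
    have e4 : sin θ ^ 2 = 1 - cos θ ^ 2 := by rw [Real.sin_sq]
    have e5 : (r * cos θ + 1) ^ 2 + (r * sin θ) ^ 2 = r ^ 2 + 2 * r * cos θ + 1 := by
      rw [mul_pow r (sin θ), e4]; ring
    rw [e3] at e5
    rw [e3]
    linear_combination e5
  have hcos0 : 0 < cos (θ / 2) := by
    apply Real.cos_pos_of_mem_Ioo
    constructor <;> linarith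
  have hcos1 : cos (θ / 2) < 1 := by
    rw [← Real.cos_zero]
    apply Real.cos_lt_cos_of_nonneg_of_le_pi (le_refl _) (by linarith) (by linarith)
  have hrz : ‖z + 1‖ = r ^ d := by rw [← hz, hnormk]
  have hge : (1 + r) * cos (θ / 2) ≤ r ^ d := by
    rw [← hrz]
    have h3 : ((1 + r) * cos (θ / 2)) ^ 2 ≤ ‖z + 1‖ ^ 2 := by
      rw [hz1]
      have : cos (θ / 2) ^ 2 ≤ 1 := Real.cos_sq_le_one _
      linarith [mul_nonneg (sq_nonneg (r - 1)) (sub_nonneg.mpr this)]
    exact le_of_sq_le_sq h3 (norm_nonneg _)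
  have hlt : r ^ d < r + 1 := by
    rw [← hrz]
    have h3 : ‖z + 1‖ ^ 2 < (r + 1) ^ 2 := by
      rw [hz1]
      have : cos (θ / 2) ^ 2 < 1 := pow_lt_one₀ hcos0.le hcos1 (by norm_num)
      linarith [mul_pos hr0 (sub_pos.mpr this)]
    exact lt_of_pow_lt_pow_left₀ 2 (by linarith) h3
  have hdd : d = (d - 1) + 1 := by omega
  have hβ0 : 0 < β := by linarith
  have hβd1 : β ^ (d - 1) * β = β + 1 := by rw [← pow_succ, ← hdd]; exact hβ
  have hrd1 : r ^ (d - 1) * r = r ^ d := by rw [← pow_succ, ← hdd]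
  have hrβ : r < β := by
    by_contra hcon
    push Not at hcon
    have h3 : β ^ (d - 1) ≤ r ^ (d - 1) := pow_le_pow_left₀ hβ0.le hcon _
    have h4 : r ^ (d - 1) * r < r + 1 := by rw [hrd1]; exact hlt
    -- β^(d-1) r β ≤ r^(d-1) r β < (r+1) β ; β^(d-1) β r = (β+1) r
    have h5 : β ^ (d - 1) * r ≤ r ^ (d - 1) * r := mul_le_mul_of_nonneg_right h3 hr0.le
    have h6 : β ^ (d - 1) * r * β < (r + 1) * β :=
      mul_lt_mul_of_pos_right (lt_of_le_of_lt h5 h4) hβ0
    have h7 : β ^ (d - 1) * r * β = (β + 1) * r := by rw [← hβd1]; ring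
    rw [h7] at h6
    linarith
  refine ⟨z, r, θ, hr1, hrβ, hθa, h2, hzdef, hz, hnormk, hsubk, hge, ?_⟩
  -- β^(d-1) cos ≤ r^(d-1)
  have h3 : β ^ (d - 1) * r ≤ r + 1 := by
    have h7 : β ^ (d - 1) * r * β = (β + 1) * r := by rw [← hβd1]; ring
    have h8 : β ^ (d - 1) * r * β ≤ (r + 1) * β := by rw [h7]; linarith
    exact le_of_mul_le_mul_right h8 hβ0
  have h4 : β ^ (d - 1) * cos (θ / 2) * r ≤ r ^ (d - 1) * r := by
    rw [hrd1]
    calc β ^ (d - 1) * cos (θ / 2) * r = (β ^ (d - 1) * r) * cos (θ / 2) := by ring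
      _ ≤ (r + 1) * cos (θ / 2) := mul_le_mul_of_nonneg_right h3 hcos0.le
      _ ≤ r ^ d := by linarith
  exact le_of_mul_le_mul_right h4 hr0

/-- The relevant conjugate with argument in `(2π/d, 2π/(d-1))`. -/
theorem exists_conjugate {d : ℕ} (hd : 4 ≤ d) {β : ℝ} (hβ1 : 1 < β) (hβ : β ^ d = β + 1) :
    ∃ (z : ℂ) (r θ : ℝ), 1 < r ∧ r < β ∧ 2 * π / d < θ ∧ θ < 2 * π / (d - 1) ∧
      z = (r : ℂ) * Complex.exp (θ * Complex.I) ∧
      z ^ d = z + 1 ∧ (∀ k : ℕ, ‖z ^ k‖ = r ^ k) ∧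
      (∀ k : ℕ, ‖z ^ k - 1‖ ^ 2 = (r ^ k - 1) ^ 2 + 4 * r ^ k * sin (k * θ / 2) ^ 2) ∧
      (1 + r) * cos (θ / 2) ≤ r ^ d ∧ β ^ (d - 1) * cos (θ / 2) ≤ r ^ (d - 1) := by
  have hd' : (4 : ℝ) ≤ d := by exact_mod_cast hd
  have hd0 : (0 : ℝ) < d := by linarith
  have hd1 : (0 : ℝ) < (d : ℝ) - 1 := by linarith
  have hπ := Real.pi_pos
  have hdb : (d - 1) * (2 * π / (d - 1)) = 2 * π := by field_simp
  have hb0 : 0 < 2 * π / ((d : ℝ) - 1) := by positivity
  apply exists_conjugate' hd hβ1 hβ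
  · apply div_lt_div_of_pos_left (by positivity) hd1; linarith
  · exact hdb.le
  · have e1 : 2 * π - (d - 1) * (2 * π / (d - 1)) = 0 := by linarith
    have e2 : d * (2 * π / (d - 1)) - 2 * π = 2 * π / (d - 1) := by linarith
    rw [e1, e2, Real.sin_zero, zero_pow (by omega), mul_zero]
    apply pow_pos
    apply Real.sin_pos_of_pos_of_lt_pi hb0
    rw [div_lt_iff₀ hd1]; nlinarith

end Pool.Agent.Helper64.Parry
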