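import Mathlib

namespace Pool.Agent.Helper64.Parry

open Real

/-- `sin (π u) ≥ π u (1 - u)` on `[0,1]`. -/
theorem sin_pi_mul_ge {u : ℝ} (h0 : 0 ≤ u) (h1 : u ≤ 1) : π * u * (1 - u) ≤ sin (π * u) := by
  -- enough on [0,1/2]
  have hπ := Real.pi_pos
  have key : ∀ x : ℝ, 0 ≤ x → x ≤ π / 2 → x - x ^ 2 / π ≤ sin x := by
    have hmono : MonotoneOn (fun x : ℝ => sin x - x + x ^ 2 / π) (Set.Icc 0 (π / 2)) := by
      apply monotoneOn_of_deriv_nonneg (convex_Icc 0 (π / 2))
      · fun_prop
      · apply Differentiable.differentiableOn; fun_prop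
      · intro x hx
        rw [interior_Icc] at hx
        have hd : deriv (fun x : ℝ => sin x - x + x ^ 2 / π) x = cos x - 1 + 2 * x / π := by
          have h1 : HasDerivAt (fun x : ℝ => sin x - x + x ^ 2 / π)
              (cos x - 1 + (2 * x ^ (2 - 1) * 1) / π) x := by
            apply HasDerivAt.add
            · exact (Real.hasDerivAt_sin x).sub (hasDerivAt_id x)
            · apply HasDerivAt.div_const
              exact (hasDerivAt_id x).pow 2
          rw [h1.deriv]; simp
        rw [hd]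
        have := Real.one_sub_mul_le_cos hx.1.le hx.2.le
        have h2 : 2 / π * x = 2 * x / π := by ring
        linarith
    intro x hx0 hx1
    have := hmono (Set.left_mem_Icc.mpr (by positivity)) (Set.mem_Icc.mpr ⟨hx0, hx1⟩) hx0
    simp at this
    linarith
  rcases le_or_gt u (1 / 2) with h | h
  · have := key (π * u) (by positivity) (by nlinarith)
    have e : π * u - (π * u) ^ 2 / π = π * u * (1 - u) := by field_simp
    linarith
  · have := key (π * (1 - u)) (mul_nonneg hπ.le (by linarith)) (by nlinarith)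
    have e : π * (1 - u) - (π * (1 - u)) ^ 2 / π = π * u * (1 - u) := by field_simp; ring
    have e2 : sin (π * (1 - u)) = sin (π * u) := by
      rw [mul_sub, mul_one, Real.sin_pi_sub]
    rw [e2] at this
    linarith

/-- The lower bound for `|z^k - 1|` coming from `θ ∈ (2π/d, 2π/(d-1))`. -/
theorem sin_half_ge {d k : ℕ} (hd : 4 ≤ d) (hkd : k ≤ d - 1) {θ : ℝ}
    (h1 : 2 * π / d < θ) (h2 : θ < 2 * π / (d - 1)) {m : ℝ} 
    (hm1 : m ≤ ((k : ℝ) / d) * (1 - (k : ℝ) / d))
    (hm2 : m ≤ ((k : ℝ) / (d - 1)) * (1 - (k : ℝ) / (d - 1))) :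
    π * m ≤ sin (k * θ / 2) := by
  have hd' : (4 : ℝ) ≤ d := by exact_mod_cast hd
  have hd0 : (0 : ℝ) < d := by linarith
  have hd1 : (0 : ℝ) < (d : ℝ) - 1 := by linarith
  have hπ := Real.pi_pos
  have hk0 : (0 : ℝ) ≤ k := Nat.cast_nonneg k
  have hkd' : (k : ℝ) ≤ d - 1 := by
    have : (k : ℝ) ≤ ((d - 1 : ℕ) : ℝ) := by exact_mod_cast hkd
    rwa [Nat.cast_sub (by omega), Nat.cast_one] at this
  set u : ℝ := k * θ / (2 * π) with hu
  have huk : k * θ / 2 = π * u := by rw [hu]; field_simp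
  have hu1 : (k : ℝ) / d ≤ u := by
    rw [hu, div_le_div_iff₀ hd0 (by positivity)]
    have : 2 * π < θ * d := by rwa [div_lt_iff₀ hd0] at h1
    nlinarith
  have hu2 : u ≤ (k : ℝ) / (d - 1) := by
    rw [hu, div_le_div_iff₀ (by positivity) hd1]
    have : θ * (d - 1) < 2 * π := by rwa [lt_div_iff₀ hd1] at h2
    nlinarith
  have hu3 : (k : ℝ) / (d - 1) ≤ 1 := by rw [div_le_one hd1]; exact hkd'
  have hu0 : 0 ≤ (k : ℝ) / d := by positivity
  have hsin := sin_pi_mul_ge (u := u) (hu0.trans hu1) (hu2.trans hu3)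
  rw [huk]
  refine le_trans ?_ hsin
  have hmu : m ≤ u * (1 - u) := by
    rcases le_total u (1 / 2) with h | h
    · refine hm1.trans ?_
      nlinarith
    · refine hm2.trans ?_
      nlinarith
  nlinarith

end Pool.Agent.Helper64.Parry
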