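import Pool.Agent.Helper64.Parry.Crit
import Pool.Agent.Helper64.Parry.Conj1
import Pool.Agent.Helper64.Parry.SinPi

namespace Pool.Agent.Helper64.Parry

open Real

theorem beta_le {d : ℕ} (hd : 2 ≤ d) {β : ℝ} (hβ1 : 1 < β) (hβ : β ^ d = β + 1) (b : ℝ)
    (hb1 : 1 ≤ b) (hb : b + 1 ≤ b ^ d) : β ≤ b := by
  by_contra hcon
  push Not at hcon
  obtain ⟨m, rfl⟩ : ∃ m, d = m + 1 := ⟨d - 1, by omega⟩
  have h1 : b ^ m < β ^ m := pow_lt_pow_left₀ hcon (by linarith) (by omega)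
  rw [pow_succ] at hβ hb
  -- b^m * b ≥ b+1 , β^m * β = β+1
  have h2 : b * (β ^ m * β) = b * (β + 1) := by rw [hβ]
  have h3 : β * (b + 1) ≤ β * (b ^ m * b) := mul_le_mul_of_nonneg_left hb (by linarith)
  have h4 : 0 < β * b * (β ^ m - b ^ m) := by
    have : 0 < β * b := by nlinarith
    exact mul_pos this (by linarith)
  nlinarith

theorem r_ge {d : ℕ} (hd : 2 ≤ d) {r c : ℝ} (hr1 : 1 < r) (C rl : ℝ) (hC0 : 0 < C) (hC : C ≤ c)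
    (hge : (1 + r) * c ≤ r ^ d) (hrl1 : 1 ≤ rl) (hrl : rl ^ d ≤ (1 + rl) * C) : rl ≤ r := by
  by_contra hcon
  push Not at hcon
  obtain ⟨m, rfl⟩ : ∃ m, d = m + 1 := ⟨d - 1, by omega⟩
  have h1 : r ^ m < rl ^ m := pow_lt_pow_left₀ hcon (by linarith) (by omega)
  rw [pow_succ] at hge hrl
  have h2 : (1 + r) * C ≤ r ^ m * r := le_trans (mul_le_mul_of_nonneg_left hC (by linarith)) hge
  -- rl * (1+r) C ≤ r^m r rl ; r * rl^m rl ≤ r (1+rl) C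
  have h3 : rl * ((1 + r) * C) ≤ rl * (r ^ m * r) := mul_le_mul_of_nonneg_left h2 (by linarith)
  have h4 : r * (rl ^ m * rl) ≤ r * ((1 + rl) * C) := mul_le_mul_of_nonneg_left hrl (by linarith)
  have h5 : 0 < r * rl * (rl ^ m - r ^ m) := by
    have : 0 < r * rl := by nlinarith
    exact mul_pos this (by linarith)
  have h6 : r * C < rl * C := mul_lt_mul_of_pos_right hcon hC0
  nlinarith

theorem cos_half_ge {d : ℕ} (hd : 4 ≤ d) {θ : ℝ} (h0 : 0 < θ) (h2 : θ < 2 * π / (d - 1)) :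
    1 - 4.93485 / ((d : ℝ) - 1) ^ 2 ≤ cos (θ / 2) := by
  have hd' : (4 : ℝ) ≤ d := by exact_mod_cast hd
  have hm0 : (0 : ℝ) < (d : ℝ) - 1 := by linarith
  have hπ4 := Real.pi_lt_d4
  have hπ := Real.pi_pos
  set m : ℝ := (d : ℝ) - 1
  have hθ2 : θ / 2 ≤ π / m := by
    have : θ * m < 2 * π := by rwa [lt_div_iff₀ hm0] at h2
    rw [div_le_div_iff₀ (by norm_num) hm0]; linarith
  have hcos : 1 - (θ / 2) ^ 2 / 2 ≤ cos (θ / 2) := Real.one_sub_sq_div_two_le_cos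
  have h3 : (θ / 2) ^ 2 ≤ (π / m) ^ 2 := pow_le_pow_left₀ (by positivity) hθ2 2
  have h4 : (π / m) ^ 2 ≤ 9.8697 / m ^ 2 := by
    rw [div_pow]
    apply div_le_div_of_nonneg_right _ (by positivity)
    nlinarith
  have : 4.93485 / m ^ 2 = 9.8697 / m ^ 2 / 2 := by ring
  rw [this]; linarith

/-- A single case `(d,k)` with the star criterion. -/
theorem not_parry_case {d : ℕ} (hd : 5 ≤ d) {β : ℝ} (hβ1 : 1 < β) (hβ : β ^ d = β + 1)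
    (bh rl C : ℝ) (hC0 : 0 < C) (hC : C ≤ 1 - 4.93485 / ((d : ℝ) - 1) ^ 2)
    (hb1 : 1 ≤ bh) (hb : bh + 1 ≤ bh ^ d) (hrl1 : 1 ≤ rl) (hrl : rl ^ d ≤ (1 + rl) * C)
    (k p q : ℕ) (hk : 1 ≤ k) (hkd : k ≤ d - 1) (hp : 1 ≤ p) (hpq : p ≤ q)
    (hrat : bh ^ p ≤ rl ^ q) (hB2 : bh ^ k < 2) (m W : ℝ) (hm0 : 0 ≤ m)
    (hm1 : m ≤ ((k : ℝ) / d) * (1 - (k : ℝ) / d))
    (hm2 : m ≤ ((k : ℝ) / (d - 1)) * (1 - (k : ℝ) / (d - 1)))
    (hW0 : 0 < W) (hW : W ^ 2 ≤ (rl ^ k - 1) ^ 2 + 4 * rl ^ k * (3.14 * m) ^ 2)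
    (X : ℝ) (hX1 : 1 ≤ X) (hX : X * (bh ^ k - 1) ≤ bh ^ k)
    (hfin : (1 + 1 / W) ^ q < X ^ p) :
    ¬ IsParry (β ^ k) := by
  obtain ⟨z, r, θ, hr1, hrβ, h1, h2, _, hz, hnorm, hsub, hge, hge'⟩ :=
    exists_conjugate (by omega : 4 ≤ d) hβ1 hβ
  have hπ := Real.pi_pos
  have hπ3 := Real.pi_gt_d2
  have hβb : β ≤ bh := beta_le (by omega) hβ1 hβ bh hb1 hb
  have hd0 : (0 : ℝ) < d := by exact_mod_cast (by omega : 0 < d)
  have hθ0 : 0 < θ := lt_trans (by positivity) h1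
  have hrr : rl ≤ r :=
    r_ge (by omega) hr1 C rl hC0 (hC.trans (cos_half_ge (by omega) hθ0 h2)) hge hrl1 hrl
  have hbk : β ^ k ≤ bh ^ k := pow_le_pow_left₀ (by linarith) hβb k
  have hrk : rl ^ k ≤ r ^ k := pow_le_pow_left₀ (by linarith) hrr k
  have hrlk : 1 ≤ rl ^ k := one_le_pow₀ hrl1
  have hsin := sin_half_ge (d := d) (k := k) (by omega) hkd h1 h2 hm1 hm2
  have hs0 : 3.14 * m ≤ sin (k * θ / 2) := by
    refine le_trans ?_ hsin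
    exact mul_le_mul_of_nonneg_right hπ3.le hm0
  have hWle : W ≤ ‖z ^ k - 1‖ := by
    apply le_of_sq_le_sq _ (norm_nonneg _)
    rw [hsub k]
    refine hW.trans ?_
    have a1 : (3.14 * m) ^ 2 ≤ sin (k * θ / 2) ^ 2 := pow_le_pow_left₀ (by positivity) hs0 2
    have a2 : (rl ^ k - 1) ^ 2 ≤ (r ^ k - 1) ^ 2 :=
      pow_le_pow_left₀ (by linarith) (by linarith) 2
    have a3 : 4 * rl ^ k * (3.14 * m) ^ 2 ≤ 4 * r ^ k * sin (k * θ / 2) ^ 2 :=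
      mul_le_mul (by linarith) a1 (by positivity) (by linarith)
    linarith
  apply not_parry_star_rat (by omega : 2 ≤ d) hβ1 hβ hz hr1 k p q (hnorm k) hk hp hpq
    _ (lt_of_le_of_lt hbk hB2) X W (by linarith) _ hW0 hWle hfin
  · calc β ^ p ≤ bh ^ p := pow_le_pow_left₀ (by linarith) hβb p
      _ ≤ rl ^ q := hrat
      _ ≤ r ^ q := pow_le_pow_left₀ (by linarith) hrr q
  · nlinarith

/-- All `k ≥ k₀` by the golden criterion. -/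
theorem not_parry_case_golden {d : ℕ} (hd : 5 ≤ d) {β : ℝ} (hβ1 : 1 < β) (hβ : β ^ d = β + 1)
    (rl C : ℝ) (hC0 : 0 < C) (hC : C ≤ 1 - 4.93485 / ((d : ℝ) - 1) ^ 2)
    (hrl1 : 1 ≤ rl) (hrl : rl ^ d ≤ (1 + rl) * C)
    (k0 : ℕ) (hk0 : 1 ≤ k0) (G : ℝ) (hG1 : 1 ≤ G) (hG : G + 1 < G ^ 2) (hGr : G ≤ rl ^ k0)
    (k : ℕ) (hk : k0 ≤ k) : ¬ IsParry (β ^ k) := by
  obtain ⟨z, r, θ, hr1, hrβ, h1, h2, _, hz, hnorm, hsub, hge, hge'⟩ :=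
    exists_conjugate (by omega : 4 ≤ d) hβ1 hβ
  have hπ := Real.pi_pos
  have hd0 : (0 : ℝ) < d := by exact_mod_cast (by omega : 0 < d)
  have hθ0 : 0 < θ := lt_trans (by positivity) h1
  have hrr : rl ≤ r :=
    r_ge (by omega) hr1 C rl hC0 (hC.trans (cos_half_ge (by omega) hθ0 h2)) hge hrl1 hrl
  apply not_parry_golden_rat (by omega : 2 ≤ d) hβ hz hr1 hrβ k (hnorm k) (by omega) G hG1 hG
  calc G ≤ rl ^ k0 := hGr
    _ ≤ r ^ k0 := pow_le_pow_left₀ (by linarith) hrr k0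
    _ ≤ r ^ k := pow_le_pow_right₀ hr1.le hk

end Pool.Agent.Helper64.Parry
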