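import Mathlib

/-!
Definitions used in the statement of the theorem on powers of the roots of `x^d - x - 1`.
-/

namespace Pool.Agent.Helper64.Parry

/-- The beta-transformation `T_β(x) = βx − ⌊βx⌋`. -/
noncomputable def betaMap (β : ℝ) (x : ℝ) : ℝ := β * x - ⌊β * x⌋

/-- `β` is a Parry number: `β > 1` and the set `{T_β^n(1) : n ≥ 1}` is finite. -/
def IsParry (β : ℝ) : Prop :=
  1 < β ∧ {y : ℝ | ∃ n : ℕ, 1 ≤ n ∧ (betaMap β)^[n] 1 = y}.Finite

end Pool.Agent.Helper64.Parry
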