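import Pool.Agent.Helper64.Parry.Crit
import Pool.Agent.Helper64.Parry.Conj1
import Pool.Agent.Helper64.Parry.SinPi

namespace Pool.Agent.Helper64.Parry

open Real

/-- The uniform range: `d ≥ 12`, `k ≤ 0.78 (d-1)`; here `m = d - 1 ≥ 11`. -/
theorem not_parry_uniform_small {d : ℕ} (hd : 12 ≤ d) {β : ℝ} (hβ1 : 1 < β) (hβ : β ^ d = β + 1)
    (k : ℕ) (hk : 1 ≤ k) (hk78 : 100 * k ≤ 78 * (d - 1)) : ¬ IsParry (β ^ k) := by
  obtain ⟨z, r, θ, hr1, hrβ, h1, h2, _, hz, hnorm, hsub, hge, hge'⟩ :=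
    exists_conjugate (by omega : 4 ≤ d) hβ1 hβ
  have hπ := Real.pi_pos
  have hπ3 := Real.pi_gt_d2
  have hπ4 := Real.pi_lt_d4
  -- m = d - 1
  obtain ⟨m, rfl⟩ : ∃ m, d = m + 1 := ⟨d - 1, by omega⟩
  have hm : 11 ≤ m := by omega
  have hm' : (11 : ℝ) ≤ m := by exact_mod_cast hm
  have hm0 : (0 : ℝ) < m := by linarith
  simp only [Nat.add_sub_cancel] at hk78 hge'
  push_cast at h1 h2
  rw [add_sub_cancel_right] at h2
  have hk' : (1 : ℝ) ≤ k := by exact_mod_cast hk
  have hk78' : 100 * (k : ℝ) ≤ 78 * m := by exact_mod_cast hk78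
  have hkm : k ≤ m := by omega
  have hβ0 : 0 < β := by linarith
  have hβm : β ^ m * β = β + 1 := by rw [← pow_succ]; exact hβ
  have hβm2 : β ^ m < 2 := by nlinarith
  -- lower bound β ≥ 1 + 0.69/(m+1): from β^(m+1) = β+1 > 2
  have hβlow : 1 + 1 / (2 * m) ≤ β := by
    by_contra hcon
    push Not at hcon
    -- β < 1 + 1/(2m) → β^(m+1) < (1+1/(2m))^(m+1) ≤ 2
    have h3 : β ^ (m + 1) ≤ (1 + 1 / (2 * m)) ^ (m + 1) := pow_le_pow_left₀ hβ0.le hcon.le _
    have h4 : (1 + 1 / (2 * (m : ℝ))) ^ (m + 1) ≤ Real.exp (1 / (2 * m) * ((m + 1 : ℕ) : ℝ)) := by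
      have h5 : (1 + 1 / (2 * (m : ℝ))) ≤ Real.exp (1 / (2 * m)) := by
        linarith [Real.add_one_le_exp (1 / (2 * (m : ℝ)))]
      calc (1 + 1 / (2 * (m : ℝ))) ^ (m + 1) ≤ (Real.exp (1 / (2 * m))) ^ (m + 1) :=
            pow_le_pow_left₀ (by positivity) h5 _
        _ = Real.exp (1 / (2 * m) * ((m + 1 : ℕ) : ℝ)) := by
            rw [← Real.exp_nat_mul]; congr 1; ring
    have h6 : 1 / (2 * m) * ((m + 1 : ℕ) : ℝ) ≤ 0.55 := by
      push_cast
      rw [div_mul_eq_mul_div, div_le_iff₀ (by positivity)]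
      nlinarith
    have h7 : Real.exp (1 / (2 * m) * ((m + 1 : ℕ) : ℝ)) ≤ 2 := by
      calc Real.exp (1 / (2 * m) * ((m + 1 : ℕ) : ℝ)) ≤ Real.exp (Real.log 2) := by
            apply Real.exp_le_exp.mpr
            linarith [Real.log_two_gt_d9]
        _ = 2 := Real.exp_log (by norm_num)
    linarith
  -- exponent s = (m-1)/m : β^(m-1) ≤ r^m
  have hcosβ : 1 ≤ β * cos (θ / 2) := by
    have hθ0 : 0 < θ := lt_trans (by positivity) h1
    have hθ2 : θ / 2 ≤ π / m := by
      have : θ * m < 2 * π := by rwa [lt_div_iff₀ hm0] at h2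
      rw [div_le_div_iff₀ (by norm_num) hm0]; linarith
    have hcos : 1 - (θ / 2) ^ 2 / 2 ≤ cos (θ / 2) := Real.one_sub_sq_div_two_le_cos
    have h3 : (θ / 2) ^ 2 ≤ (π / m) ^ 2 := pow_le_pow_left₀ (by positivity) hθ2 2
    have h4 : (π / m) ^ 2 ≤ 9.8697 / m ^ 2 := by
      rw [div_pow]
      apply div_le_div_of_nonneg_right _ (by positivity)
      nlinarith
    have h5 : 1 - 4.93485 / (m : ℝ) ^ 2 ≤ cos (θ / 2) := by
      have : 4.93485 / (m : ℝ) ^ 2 = 9.8697 / m ^ 2 / 2 := by ring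
      rw [this]; linarith
    have h6 : 0 ≤ 1 - 4.93485 / (m : ℝ) ^ 2 := by
      rw [sub_nonneg, div_le_one (by positivity)]; nlinarith
    have h7 : 1 ≤ (1 + 1 / (2 * (m : ℝ))) * (1 - 4.93485 / (m : ℝ) ^ 2) := by
      have : (1 + 1 / (2 * (m : ℝ))) * (1 - 4.93485 / (m : ℝ) ^ 2) - 1 =
          (m ^ 2 / 2 - 4.93485 * m - 4.93485 / 2) / (m : ℝ) ^ 3 := by
        field_simp; ring
      have h8 : 0 ≤ (m ^ 2 / 2 - 4.93485 * m - 4.93485 / 2) / (m : ℝ) ^ 3 := by
        apply div_nonneg _ (by positivity)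
        nlinarith
      linarith
    calc (1 : ℝ) ≤ (1 + 1 / (2 * (m : ℝ))) * (1 - 4.93485 / (m : ℝ) ^ 2) := h7
      _ ≤ β * cos (θ / 2) := mul_le_mul hβlow h5 h6 hβ0.le
  have hrat : β ^ (m - 1) ≤ r ^ m := by
    have h3 : β ^ (m - 1) * 1 ≤ β ^ (m - 1) * (β * cos (θ / 2)) :=
      mul_le_mul_of_nonneg_left hcosβ (by positivity)
    have h4 : β ^ (m - 1) * (β * cos (θ / 2)) = β ^ m * cos (θ / 2) := by
      rw [← mul_assoc, ← pow_succ]; congr 2; omega
    rw [mul_one, h4] at h3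
    exact h3.trans hge'
  -- β^k ≤ 1 + k/m
  have hkm' : (k : ℝ) / m ≤ 1 := by
    rw [div_le_one hm0]; exact_mod_cast hkm
  have hBk : β ^ k ≤ 1 + k / m := by
    have h3 : β ^ k ≤ (2 : ℝ) ^ ((k : ℝ) / m) := by
      have h4 : β ^ k = (β ^ m) ^ ((k : ℝ) / m) := by
        rw [← Real.rpow_natCast β m, ← Real.rpow_mul hβ0.le, mul_div_cancel₀ _ hm0.ne',
          Real.rpow_natCast]
      rw [h4]
      exact Real.rpow_le_rpow (by positivity) hβm2.le (by positivity)
    have h5 : (1 + (1 : ℝ)) ^ ((k : ℝ) / m) ≤ 1 + (k : ℝ) / m * 1 :=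
      rpow_one_add_le_one_add_mul_self (by norm_num) (by positivity) hkm'
    rw [mul_one, one_add_one_eq_two] at h5
    exact h3.trans h5
  have hB2 : β ^ k < 2 := by
    have : (k : ℝ) / m < 1 := by rw [div_lt_one hm0]; linarith
    linarith
  have hk0 : (0 : ℝ) < k := by linarith
  set W : ℝ := 2 * (π * ((k : ℝ) / (m + 1) * (1 - k / m))) with hW
  have hWpos : 0 < W := by
    have : 0 < 1 - (k : ℝ) / m := by
      rw [sub_pos, div_lt_one hm0]; linarith
    rw [hW]; positivity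
  have hsin := sin_half_ge (d := m + 1) (k := k) (by omega) (by omega) (θ := θ)
    (by push_cast; exact h1) (by push_cast; rw [add_sub_cancel_right]; exact h2)
    (m := (k : ℝ) / (m + 1) * (1 - k / m))
    (by
      push_cast
      apply mul_le_mul_of_nonneg_left _ (by positivity)
      have : (k : ℝ) / (m + 1) ≤ k / m := by
        apply div_le_div_of_nonneg_left hk0.le hm0; linarith
      linarith)
    (by
      push_cast
      rw [add_sub_cancel_right]
      apply mul_le_mul_of_nonneg_right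
      · apply div_le_div_of_nonneg_left hk0.le hm0; linarith
      · linarith)
  have hWle : W ≤ ‖z ^ k - 1‖ := by
    have h3 := hsub k
    have hrk : 1 ≤ r ^ k := one_le_pow₀ hr1.le
    have h4 : (2 * sin (k * θ / 2)) ^ 2 ≤ ‖z ^ k - 1‖ ^ 2 := by
      rw [h3]
      have a1 := mul_nonneg (sub_nonneg.mpr hrk) (sq_nonneg (sin (k * θ / 2)))
      linarith [sq_nonneg (r ^ k - 1), a1]
    have h5 : 2 * sin (k * θ / 2) ≤ ‖z ^ k - 1‖ := le_of_sq_le_sq h4 (norm_nonneg _)
    rw [hW]; linarith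
  apply not_parry_star_rat (by omega : 2 ≤ m + 1) hβ1 hβ hz hr1 k (m - 1) m (hnorm k) hk
    (by omega) (by omega) hrat hB2 (1 + m / k) W (by positivity) _ hWpos hWle
  · -- (1 + 1/W)^m < (1 + m/k)^(m-1)
    have h3 : 1 + 1 / W < ((k : ℝ) + m) / (k + 1) := by
      have h4 : 1 / W < (m - 1) / ((k : ℝ) + 1) := by
        rw [div_lt_div_iff₀ hWpos (by positivity), one_mul]
        have h5 : W = 2 * π * k * (m - k) / (m * (m + 1)) := by
          rw [hW]; field_simp
        rw [h5, mul_div_assoc', lt_div_iff₀ (by positivity)]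
        -- (k+1) m (m+1) < (m-1) * (2 π k (m-k))
        have hkk : 0 ≤ ((k : ℝ) - 1) * (0.78 * m - k) :=
          mul_nonneg (by linarith) (by linarith)
        have hpi : (3.14 : ℝ) < π := hπ3
        have hq : 0 ≤ (k : ℝ) * (m - k) * (m - 1) := by
          apply mul_nonneg (mul_nonneg hk0.le _) (by linarith)
          linarith
        have h6 : ((k : ℝ) + 1) * (m * (m + 1)) < (m - 1) * (2 * 3.14 * k * (m - k)) := by
          -- linear in k after using hkk
          have h7 : (k : ℝ) * (m - k) ≥ k * m - ((1 + 0.78 * m) * k - 0.78 * m) := by linarith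
          have h8 : ((m : ℝ) - 1) * (2 * 3.14 * (k * m - ((1 + 0.78 * m) * k - 0.78 * m))) ≤
              (m - 1) * (2 * 3.14 * k * (m - k)) := by
            apply mul_le_mul_of_nonneg_left _ (by linarith)
            linarith [mul_le_mul_of_nonneg_left h7 (by norm_num : (0:ℝ) ≤ 2 * 3.14)]
          refine lt_of_lt_of_le ?_ h8
          -- endpoints k=1 and k=0.78 m
          have hm1 : 0 ≤ (m : ℝ) - 11 := by linarith
          have e1 : 0 < 6.28 * ((m : ℝ) - 1) ^ 2 - 2 * (m * (m + 1)) := by nlinarith [mul_nonneg hm1 hm1]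
          have e2 : 0 < (m : ℝ) * (6.28 * 0.78 * 0.22 * m * (m - 1) -
              (0.78 * m + 1) * (m + 1)) := by
            apply mul_pos hm0; nlinarith [mul_nonneg hm1 hm1]
          have e3 : (0.78 * (m : ℝ) - 1) * ((m - 1) * (2 * 3.14 *
              (k * m - ((1 + 0.78 * m) * k - 0.78 * m))) - ((k : ℝ) + 1) * (m * (m + 1))) =
              (0.78 * m - k) * (6.28 * ((m : ℝ) - 1) ^ 2 - 2 * (m * (m + 1))) +
              (k - 1) * ((m : ℝ) * (6.28 * 0.78 * 0.22 * m * (m - 1) -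
              (0.78 * m + 1) * (m + 1))) := by ring
          have e4 : 0 < (0.78 * (m : ℝ) - 1) * ((m - 1) * (2 * 3.14 *
              (k * m - ((1 + 0.78 * m) * k - 0.78 * m))) - ((k : ℝ) + 1) * (m * (m + 1))) := by
            rw [e3]
            rcases eq_or_lt_of_le hk' with h | h
            · rw [← h]
              have := mul_pos (by linarith : (0 : ℝ) < 0.78 * m - 1) e1
              linarith
            · have a1 := mul_nonneg (by linarith : (0 : ℝ) ≤ 0.78 * m - k) e1.le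
              have a2 := mul_pos (by linarith : (0 : ℝ) < k - 1) e2
              linarith
          have e5 : 0 < 0.78 * (m : ℝ) - 1 := by linarith
          have e6 := (mul_pos_iff_of_pos_left e5).mp e4
          linarith
        have h9 : ((m : ℝ) - 1) * (2 * 3.14 * k * (m - k)) ≤ (m - 1) * (2 * π * k * (m - k)) := by
          linarith [mul_nonneg (sub_nonneg.mpr hpi.le) hq]
        linarith
      have h5 : ((k : ℝ) + m) / (k + 1) = 1 + (m - 1) / (k + 1) := by field_simp; ring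
      rw [h5]; linarith
    have h4 : (((k : ℝ) + m) / (k + 1)) ^ m ≤ (1 + m / k) ^ (m - 1) := by
      have h5 : 1 + (m : ℝ) * (1 / k) ≤ (1 + 1 / k) ^ m :=
        one_add_mul_le_pow (by have : 0 < 1 / (k : ℝ) := by positivity
                               linarith) m
      have h6 : ((k : ℝ) + m) / (k + 1) * (1 + 1 / k) = 1 + m / k := by field_simp
      have h7 : (1 + (m : ℝ) / k) ^ m = (1 + m / k) ^ (m - 1) * (1 + m / k) := by
        rw [← pow_succ]; congr 1; omega
      have h8 : (((k : ℝ) + m) / (k + 1)) ^ m * (1 + 1 / k) ^ m = (1 + m / k) ^ m := by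
        rw [← mul_pow, h6]
      have h9 : (((k : ℝ) + m) / (k + 1)) ^ m * (1 + m / k) ≤
          (1 + m / k) ^ (m - 1) * (1 + m / k) := by
        rw [← h7, ← h8]
        apply mul_le_mul_of_nonneg_left _ (by positivity)
        have : (m : ℝ) / k = m * (1 / k) := by ring
        rw [this]; exact h5
      exact le_of_mul_le_mul_right h9 (by positivity)
    exact lt_of_lt_of_le (pow_lt_pow_left₀ h3 (by positivity) (by omega)) h4
  · -- X (B - 1) ≤ B
    have h3 : (β ^ k - 1) * (m / k) ≤ 1 := by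
      have h4 : β ^ k - 1 ≤ k / m := by linarith
      calc (β ^ k - 1) * (m / k) ≤ (k / m) * (m / k) :=
            mul_le_mul_of_nonneg_right h4 (by positivity)
        _ = 1 := by field_simp
    linarith

end Pool.Agent.Helper64.Parry
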