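import Pool.Agent.Helper64.Parry.Cases
import Pool.Agent.Helper64.Parry.Uniform

namespace Pool.Agent.Helper64.Parry

open Real

/-- The large-`k` range for `d ≥ 12`. -/
theorem not_parry_uniform_large {d : ℕ} (hd : 12 ≤ d) {β : ℝ} (hβ1 : 1 < β) (hβ : β ^ d = β + 1)
    (k : ℕ) (hk78 : 78 * (d - 1) < 100 * k) : ¬ IsParry (β ^ k) := by
  obtain ⟨z, r, θ, hr1, hrβ, h1, h2, _, hz, hnorm, hsub, hge, hge'⟩ :=
    exists_conjugate (by omega : 4 ≤ d) hβ1 hβ
  have hπ := Real.pi_pos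
  have hd0 : (0 : ℝ) < d := by exact_mod_cast (by omega : 0 < d)
  have hθ0 : 0 < θ := lt_trans (by positivity) h1
  have hcos := cos_half_ge (by omega) hθ0 h2
  obtain ⟨m, rfl⟩ : ∃ m, d = m + 1 := ⟨d - 1, by omega⟩
  have hm : 11 ≤ m := by omega
  have hm' : (11 : ℝ) ≤ m := by exact_mod_cast hm
  simp only [Nat.add_sub_cancel] at hk78 hge'
  push_cast at hcos
  rw [add_sub_cancel_right] at hcos
  have hβ0 : 0 < β := by linarith
  have hβm : β ^ m * β = β + 1 := by rw [← pow_succ]; exact hβ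
  have hb : β ≤ 1.0622 := by
    apply beta_le (by omega) hβ1 hβ _ (by norm_num)
    calc (1.0622 : ℝ) + 1 ≤ 1.0622 ^ 12 := by norm_num
      _ ≤ 1.0622 ^ (m + 1) := pow_le_pow_right₀ (by norm_num) (by omega)
  have hβm1 : 1.9414 ≤ β ^ m := by
    by_contra hcon
    push Not at hcon
    nlinarith
  have hcos1 : 0.9592 ≤ cos (θ / 2) := by
    refine le_trans ?_ hcos
    have : 4.93485 / (m : ℝ) ^ 2 ≤ 4.93485 / 121 := by
      apply div_le_div_of_nonneg_left (by norm_num) (by norm_num)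
      nlinarith
    have h3 : (4.93485 : ℝ) / 121 ≤ 0.0408 := by norm_num
    linarith
  have hrm : 1.862 ≤ r ^ m := by
    refine le_trans ?_ hge'
    nlinarith
  have hk1 : 1 ≤ k := by omega
  apply not_parry_golden_rat (by omega : 2 ≤ m + 1) hβ hz hr1 hrβ k (hnorm k) hk1 1.6181
    (by norm_num) (by norm_num)
  have h3 : (1.6181 : ℝ) ^ 50 ≤ (r ^ k) ^ 50 := by
    calc (1.6181 : ℝ) ^ 50 ≤ 1.862 ^ 39 := by norm_num
      _ ≤ (r ^ m) ^ 39 := pow_le_pow_left₀ (by norm_num) hrm 39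
      _ = r ^ (m * 39) := by rw [pow_mul]
      _ ≤ r ^ (k * 50) := pow_le_pow_right₀ hr1.le (by omega)
      _ = (r ^ k) ^ 50 := by rw [pow_mul]
  exact le_of_pow_le_pow_left₀ (by norm_num) (by positivity) h3

theorem not_parry_ge_12 {d : ℕ} (hd : 12 ≤ d) {β : ℝ} (hβ1 : 1 < β) (hβ : β ^ d = β + 1)
    (k : ℕ) (hk : 1 ≤ k) : ¬ IsParry (β ^ k) := by
  rcases Nat.lt_or_ge (78 * (d - 1)) (100 * k) with h | h
  · exact not_parry_uniform_large hd hβ1 hβ k h
  · exact not_parry_uniform_small hd hβ1 hβ k hk h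

end Pool.Agent.Helper64.Parry
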