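import Pool.Agent.Helper64.Parry.Cases

namespace Pool.Agent.Helper64.Parry

open Real

theorem case_6 {β : ℝ} (hβ1 : 1 < β) (hβ : β ^ 6 = β + 1) (k : ℕ) (hk : 1 ≤ k) (hk5 : k ≠ 5) :
    ¬ IsParry (β ^ k) := by
  rcases Nat.lt_or_ge k 6 with h | h
  · interval_cases k
    · exact not_parry_case (d := 6) (by norm_num) hβ1 hβ (2837 / 2500) (109 / 100) (4013 / 5000) (by norm_num)
        (by norm_num) (by norm_num) (by norm_num) (by norm_num) (by norm_num) 1 1 2 (by norm_num)
        (by norm_num) (by norm_num) (by norm_num) (by norm_num) (by norm_num) (5 / 36) (183 / 200)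
        (by norm_num) (by norm_num) (by norm_num) (by norm_num) (by norm_num) (4209 / 500)
        (by norm_num) (by norm_num) (by norm_num)
    · exact not_parry_case (d := 6) (by norm_num) hβ1 hβ (2837 / 2500) (109 / 100) (4013 / 5000) (by norm_num)
        (by norm_num) (by norm_num) (by norm_num) (by norm_num) (by norm_num) 2 1 2 (by norm_num)
        (by norm_num) (by norm_num) (by norm_num) (by norm_num) (by norm_num) (2 / 9) (383 / 250)
        (by norm_num) (by norm_num) (by norm_num) (by norm_num) (by norm_num) (2237 / 500)
        (by norm_num) (by norm_num) (by norm_num)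
    · exact not_parry_case (d := 6) (by norm_num) hβ1 hβ (2837 / 2500) (109 / 100) (4013 / 5000) (by norm_num)
        (by norm_num) (by norm_num) (by norm_num) (by norm_num) (by norm_num) 3 1 2 (by norm_num)
        (by norm_num) (by norm_num) (by norm_num) (by norm_num) (by norm_num) (6 / 25) (87 / 50)
        (by norm_num) (by norm_num) (by norm_num) (by norm_num) (by norm_num) (3167 / 1000)
        (by norm_num) (by norm_num) (by norm_num)
    · exact not_parry_case (d := 6) (by norm_num) hβ1 hβ (2837 / 2500) (109 / 100) (4013 / 5000) (by norm_num)
        (by norm_num) (by norm_num) (by norm_num) (by norm_num) (by norm_num) 4 2 3 (by norm_num)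
        (by norm_num) (by norm_num) (by norm_num) (by norm_num) (by norm_num) (4 / 25) (631 / 500)
        (by norm_num) (by norm_num) (by norm_num) (by norm_num) (by norm_num) (1259 / 500)
        (by norm_num) (by norm_num) (by norm_num)
    · exact absurd rfl hk5
  · exact not_parry_case_golden (d := 6) (by norm_num) hβ1 hβ (109 / 100) (4013 / 5000) (by norm_num)
      (by norm_num) (by norm_num) (by norm_num) 6 (by norm_num) (16181 / 10000) (by norm_num)
      (by norm_num) (by norm_num) k h

theorem case_7 {β : ℝ} (hβ1 : 1 < β) (hβ : β ^ 7 = β + 1) (k : ℕ) (hk : 1 ≤ k) :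
    ¬ IsParry (β ^ k) := by
  rcases Nat.lt_or_ge k 6 with h | h
  · interval_cases k
    · exact not_parry_case (d := 7) (by norm_num) hβ1 hβ (1391 / 1250) (10877 / 10000) (21573 / 25000) (by norm_num)
        (by norm_num) (by norm_num) (by norm_num) (by norm_num) (by norm_num) 1 1 2 (by norm_num)
        (by norm_num) (by norm_num) (by norm_num) (by norm_num) (by norm_num) (6 / 49) (403 / 500)
        (by norm_num) (by norm_num) (by norm_num) (by norm_num) (by norm_num) (1973 / 200)
        (by norm_num) (by norm_num) (by norm_num)
    · exact not_parry_case (d := 7) (by norm_num) hβ1 hβ (1391 / 1250) (10877 / 10000) (21573 / 25000) (by norm_num)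
        (by norm_num) (by norm_num) (by norm_num) (by norm_num) (by norm_num) 2 1 2 (by norm_num)
        (by norm_num) (by norm_num) (by norm_num) (by norm_num) (by norm_num) (10 / 49) (703 / 500)
        (by norm_num) (by norm_num) (by norm_num) (by norm_num) (by norm_num) (1039 / 200)
        (by norm_num) (by norm_num) (by norm_num)
    · exact not_parry_case (d := 7) (by norm_num) hβ1 hβ (1391 / 1250) (10877 / 10000) (21573 / 25000) (by norm_num)
        (by norm_num) (by norm_num) (by norm_num) (by norm_num) (by norm_num) 3 1 2 (by norm_num)
        (by norm_num) (by norm_num) (by norm_num) (by norm_num) (by norm_num) (12 / 49) (221 / 125)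
        (by norm_num) (by norm_num) (by norm_num) (by norm_num) (by norm_num) (729 / 200)
        (by norm_num) (by norm_num) (by norm_num)
    · exact not_parry_case (d := 7) (by norm_num) hβ1 hβ (1391 / 1250) (10877 / 10000) (21573 / 25000) (by norm_num)
        (by norm_num) (by norm_num) (by norm_num) (by norm_num) (by norm_num) 4 1 2 (by norm_num)
        (by norm_num) (by norm_num) (by norm_num) (by norm_num) (by norm_num) (2 / 9) (849 / 500)
        (by norm_num) (by norm_num) (by norm_num) (by norm_num) (by norm_num) (1437 / 500)
        (by norm_num) (by norm_num) (by norm_num)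
    · exact not_parry_case (d := 7) (by norm_num) hβ1 hβ (1391 / 1250) (10877 / 10000) (21573 / 25000) (by norm_num)
        (by norm_num) (by norm_num) (by norm_num) (by norm_num) (by norm_num) 5 3 4 (by norm_num)
        (by norm_num) (by norm_num) (by norm_num) (by norm_num) (by norm_num) (5 / 36) (299 / 250)
        (by norm_num) (by norm_num) (by norm_num) (by norm_num) (by norm_num) (483 / 200)
        (by norm_num) (by norm_num) (by norm_num)
  · exact not_parry_case_golden (d := 7) (by norm_num) hβ1 hβ (10877 / 10000) (21573 / 25000) (by norm_num)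
      (by norm_num) (by norm_num) (by norm_num) 6 (by norm_num) (16181 / 10000) (by norm_num)
      (by norm_num) (by norm_num) k h

theorem case_8 {β : ℝ} (hβ1 : 1 < β) (hβ : β ^ 8 = β + 1) (k : ℕ) (hk : 1 ≤ k) :
    ¬ IsParry (β ^ k) := by
  rcases Nat.lt_or_ge k 7 with h | h
  · interval_cases k
    · exact not_parry_case (d := 8) (by norm_num) hβ1 hβ (1097 / 1000) (2163 / 2000) (11241 / 12500) (by norm_num)
        (by norm_num) (by norm_num) (by norm_num) (by norm_num) (by norm_num) 1 1 2 (by norm_num)
        (by norm_num) (by norm_num) (by norm_num) (by norm_num) (by norm_num) (7 / 64) (359 / 500)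
        (by norm_num) (by norm_num) (by norm_num) (by norm_num) (by norm_num) (11309 / 1000)
        (by norm_num) (by norm_num) (by norm_num)
    · exact not_parry_case (d := 8) (by norm_num) hβ1 hβ (1097 / 1000) (2163 / 2000) (11241 / 12500) (by norm_num)
        (by norm_num) (by norm_num) (by norm_num) (by norm_num) (by norm_num) 2 1 2 (by norm_num)
        (by norm_num) (by norm_num) (by norm_num) (by norm_num) (by norm_num) (3 / 16) (321 / 250)
        (by norm_num) (by norm_num) (by norm_num) (by norm_num) (by norm_num) (1479 / 250)
        (by norm_num) (by norm_num) (by norm_num)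
    · exact not_parry_case (d := 8) (by norm_num) hβ1 hβ (1097 / 1000) (2163 / 2000) (11241 / 12500) (by norm_num)
        (by norm_num) (by norm_num) (by norm_num) (by norm_num) (by norm_num) 3 1 2 (by norm_num)
        (by norm_num) (by norm_num) (by norm_num) (by norm_num) (by norm_num) (15 / 64) (419 / 250)
        (by norm_num) (by norm_num) (by norm_num) (by norm_num) (by norm_num) (4123 / 1000)
        (by norm_num) (by norm_num) (by norm_num)
    · exact not_parry_case (d := 8) (by norm_num) hβ1 hβ (1097 / 1000) (2163 / 2000) (11241 / 12500) (by norm_num)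
        (by norm_num) (by norm_num) (by norm_num) (by norm_num) (by norm_num) 4 1 2 (by norm_num)
        (by norm_num) (by norm_num) (by norm_num) (by norm_num) (by norm_num) (12 / 49) (459 / 250)
        (by norm_num) (by norm_num) (by norm_num) (by norm_num) (by norm_num) (3231 / 1000)
        (by norm_num) (by norm_num) (by norm_num)
    · exact not_parry_case (d := 8) (by norm_num) hβ1 hβ (1097 / 1000) (2163 / 2000) (11241 / 12500) (by norm_num)
        (by norm_num) (by norm_num) (by norm_num) (by norm_num) (by norm_num) 5 1 2 (by norm_num)
        (by norm_num) (by norm_num) (by norm_num) (by norm_num) (by norm_num) (10 / 49) (1631 / 1000)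
        (by norm_num) (by norm_num) (by norm_num) (by norm_num) (by norm_num) (1349 / 500)
        (by norm_num) (by norm_num) (by norm_num)
    · exact not_parry_case (d := 8) (by norm_num) hβ1 hβ (1097 / 1000) (2163 / 2000) (11241 / 12500) (by norm_num)
        (by norm_num) (by norm_num) (by norm_num) (by norm_num) (by norm_num) 6 3 4 (by norm_num)
        (by norm_num) (by norm_num) (by norm_num) (by norm_num) (by norm_num) (6 / 49) (571 / 500)
        (by norm_num) (by norm_num) (by norm_num) (by norm_num) (by norm_num) (1173 / 500)
        (by norm_num) (by norm_num) (by norm_num)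
  · exact not_parry_case_golden (d := 8) (by norm_num) hβ1 hβ (2163 / 2000) (11241 / 12500) (by norm_num)
      (by norm_num) (by norm_num) (by norm_num) 7 (by norm_num) (16181 / 10000) (by norm_num)
      (by norm_num) (by norm_num) k h

end Pool.Agent.Helper64.Parry
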