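import Pool.Agent.Helper64.Parry.Cases

namespace Pool.Agent.Helper64.Parry

open Real

theorem case_9 {β : ℝ} (hβ1 : 1 < β) (hβ : β ^ 9 = β + 1) (k : ℕ) (hk : 1 ≤ k) :
    ¬ IsParry (β ^ k) := by
  rcases Nat.lt_or_ge k 7 with h | h
  · interval_cases k
    · exact not_parry_case (d := 9) (by norm_num) hβ1 hβ (10851 / 10000) (2687 / 2500) (92289 / 100000) (by norm_num)
        (by norm_num) (by norm_num) (by norm_num) (by norm_num) (by norm_num) 1 1 2 (by norm_num)
        (by norm_num) (by norm_num) (by norm_num) (by norm_num) (by norm_num) (8 / 81) (647 / 1000)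
        (by norm_num) (by norm_num) (by norm_num) (by norm_num) (by norm_num) (51 / 4)
        (by norm_num) (by norm_num) (by norm_num)
    · exact not_parry_case (d := 9) (by norm_num) hβ1 hβ (10851 / 10000) (2687 / 2500) (92289 / 100000) (by norm_num)
        (by norm_num) (by norm_num) (by norm_num) (by norm_num) (by norm_num) 2 1 2 (by norm_num)
        (by norm_num) (by norm_num) (by norm_num) (by norm_num) (by norm_num) (14 / 81) (147 / 125)
        (by norm_num) (by norm_num) (by norm_num) (by norm_num) (by norm_num) (1327 / 200)
        (by norm_num) (by norm_num) (by norm_num)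
    · exact not_parry_case (d := 9) (by norm_num) hβ1 hβ (10851 / 10000) (2687 / 2500) (92289 / 100000) (by norm_num)
        (by norm_num) (by norm_num) (by norm_num) (by norm_num) (by norm_num) 3 1 2 (by norm_num)
        (by norm_num) (by norm_num) (by norm_num) (by norm_num) (by norm_num) (2 / 9) (1573 / 1000)
        (by norm_num) (by norm_num) (by norm_num) (by norm_num) (by norm_num) (4601 / 1000)
        (by norm_num) (by norm_num) (by norm_num)
    · exact not_parry_case (d := 9) (by norm_num) hβ1 hβ (10851 / 10000) (2687 / 2500) (92289 / 100000) (by norm_num)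
        (by norm_num) (by norm_num) (by norm_num) (by norm_num) (by norm_num) 4 1 2 (by norm_num)
        (by norm_num) (by norm_num) (by norm_num) (by norm_num) (by norm_num) (20 / 81) (911 / 500)
        (by norm_num) (by norm_num) (by norm_num) (by norm_num) (by norm_num) (897 / 250)
        (by norm_num) (by norm_num) (by norm_num)
    · exact not_parry_case (d := 9) (by norm_num) hβ1 hβ (10851 / 10000) (2687 / 2500) (92289 / 100000) (by norm_num)
        (by norm_num) (by norm_num) (by norm_num) (by norm_num) (by norm_num) 5 1 2 (by norm_num)
        (by norm_num) (by norm_num) (by norm_num) (by norm_num) (by norm_num) (15 / 64) (363 / 200)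
        (by norm_num) (by norm_num) (by norm_num) (by norm_num) (by norm_num) (1491 / 500)
        (by norm_num) (by norm_num) (by norm_num)
    · exact not_parry_case (d := 9) (by norm_num) hβ1 hβ (10851 / 10000) (2687 / 2500) (92289 / 100000) (by norm_num)
        (by norm_num) (by norm_num) (by norm_num) (by norm_num) (by norm_num) 6 2 3 (by norm_num)
        (by norm_num) (by norm_num) (by norm_num) (by norm_num) (by norm_num) (3 / 16) (1559 / 1000)
        (by norm_num) (by norm_num) (by norm_num) (by norm_num) (by norm_num) (2581 / 1000)
        (by norm_num) (by norm_num) (by norm_num)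
  · exact not_parry_case_golden (d := 9) (by norm_num) hβ1 hβ (2687 / 2500) (92289 / 100000) (by norm_num)
      (by norm_num) (by norm_num) (by norm_num) 7 (by norm_num) (16181 / 10000) (by norm_num)
      (by norm_num) (by norm_num) k h

theorem case_10 {β : ℝ} (hβ1 : 1 < β) (hβ : β ^ 10 = β + 1) (k : ℕ) (hk : 1 ≤ k) :
    ¬ IsParry (β ^ k) := by
  rcases Nat.lt_or_ge k 8 with h | h
  · interval_cases k
    · exact not_parry_case (d := 10) (by norm_num) hβ1 hβ (5379 / 5000) (5343 / 5000) (93907 / 100000) (by norm_num)
        (by norm_num) (by norm_num) (by norm_num) (by norm_num) (by norm_num) 1 1 2 (by norm_num)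
        (by norm_num) (by norm_num) (by norm_num) (by norm_num) (by norm_num) (9 / 100) (147 / 250)
        (by norm_num) (by norm_num) (by norm_num) (by norm_num) (by norm_num) (1774 / 125)
        (by norm_num) (by norm_num) (by norm_num)
    · exact not_parry_case (d := 10) (by norm_num) hβ1 hβ (5379 / 5000) (5343 / 5000) (93907 / 100000) (by norm_num)
        (by norm_num) (by norm_num) (by norm_num) (by norm_num) (by norm_num) 2 1 2 (by norm_num)
        (by norm_num) (by norm_num) (by norm_num) (by norm_num) (by norm_num) (4 / 25) (1083 / 1000)
        (by norm_num) (by norm_num) (by norm_num) (by norm_num) (by norm_num) (1471 / 200)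
        (by norm_num) (by norm_num) (by norm_num)
    · exact not_parry_case (d := 10) (by norm_num) hβ1 hβ (5379 / 5000) (5343 / 5000) (93907 / 100000) (by norm_num)
        (by norm_num) (by norm_num) (by norm_num) (by norm_num) (by norm_num) 3 1 2 (by norm_num)
        (by norm_num) (by norm_num) (by norm_num) (by norm_num) (by norm_num) (21 / 100) (1473 / 1000)
        (by norm_num) (by norm_num) (by norm_num) (by norm_num) (by norm_num) (127 / 25)
        (by norm_num) (by norm_num) (by norm_num)
    · exact not_parry_case (d := 10) (by norm_num) hβ1 hβ (5379 / 5000) (5343 / 5000) (93907 / 100000) (by norm_num)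
        (by norm_num) (by norm_num) (by norm_num) (by norm_num) (by norm_num) 4 1 2 (by norm_num)
        (by norm_num) (by norm_num) (by norm_num) (by norm_num) (by norm_num) (6 / 25) (1747 / 1000)
        (by norm_num) (by norm_num) (by norm_num) (by norm_num) (by norm_num) (789 / 200)
        (by norm_num) (by norm_num) (by norm_num)
    · exact not_parry_case (d := 10) (by norm_num) hβ1 hβ (5379 / 5000) (5343 / 5000) (93907 / 100000) (by norm_num)
        (by norm_num) (by norm_num) (by norm_num) (by norm_num) (by norm_num) 5 1 2 (by norm_num)
        (by norm_num) (by norm_num) (by norm_num) (by norm_num) (by norm_num) (20 / 81) (234 / 125)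
        (by norm_num) (by norm_num) (by norm_num) (by norm_num) (by norm_num) (3267 / 1000)
        (by norm_num) (by norm_num) (by norm_num)
    · exact not_parry_case (d := 10) (by norm_num) hβ1 hβ (5379 / 5000) (5343 / 5000) (93907 / 100000) (by norm_num)
        (by norm_num) (by norm_num) (by norm_num) (by norm_num) (by norm_num) 6 1 2 (by norm_num)
        (by norm_num) (by norm_num) (by norm_num) (by norm_num) (by norm_num) (2 / 9) (1771 / 1000)
        (by norm_num) (by norm_num) (by norm_num) (by norm_num) (by norm_num) (2817 / 1000)
        (by norm_num) (by norm_num) (by norm_num)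
    · exact not_parry_case (d := 10) (by norm_num) hβ1 hβ (5379 / 5000) (5343 / 5000) (93907 / 100000) (by norm_num)
        (by norm_num) (by norm_num) (by norm_num) (by norm_num) (by norm_num) 7 2 3 (by norm_num)
        (by norm_num) (by norm_num) (by norm_num) (by norm_num) (by norm_num) (14 / 81) (1491 / 1000)
        (by norm_num) (by norm_num) (by norm_num) (by norm_num) (by norm_num) (2497 / 1000)
        (by norm_num) (by norm_num) (by norm_num)
  · exact not_parry_case_golden (d := 10) (by norm_num) hβ1 hβ (5343 / 5000) (93907 / 100000) (by norm_num)
      (by norm_num) (by norm_num) (by norm_num) 8 (by norm_num) (16181 / 10000) (by norm_num)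
      (by norm_num) (by norm_num) k h

theorem case_11 {β : ℝ} (hβ1 : 1 < β) (hβ : β ^ 11 = β + 1) (k : ℕ) (hk : 1 ≤ k) :
    ¬ IsParry (β ^ k) := by
  rcases Nat.lt_or_ge k 8 with h | h
  · interval_cases k
    · exact not_parry_case (d := 11) (by norm_num) hβ1 hβ (10683 / 10000) (10631 / 10000) (19013 / 20000) (by norm_num)
        (by norm_num) (by norm_num) (by norm_num) (by norm_num) (by norm_num) 1 1 2 (by norm_num)
        (by norm_num) (by norm_num) (by norm_num) (by norm_num) (by norm_num) (10 / 121) (269 / 500)
        (by norm_num) (by norm_num) (by norm_num) (by norm_num) (by norm_num) (15641 / 1000)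
        (by norm_num) (by norm_num) (by norm_num)
    · exact not_parry_case (d := 11) (by norm_num) hβ1 hβ (10683 / 10000) (10631 / 10000) (19013 / 20000) (by norm_num)
        (by norm_num) (by norm_num) (by norm_num) (by norm_num) (by norm_num) 2 1 2 (by norm_num)
        (by norm_num) (by norm_num) (by norm_num) (by norm_num) (by norm_num) (18 / 121) (1001 / 1000)
        (by norm_num) (by norm_num) (by norm_num) (by norm_num) (by norm_num) (4039 / 500)
        (by norm_num) (by norm_num) (by norm_num)
    · exact not_parry_case (d := 11) (by norm_num) hβ1 hβ (10683 / 10000) (10631 / 10000) (19013 / 20000) (by norm_num)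
        (by norm_num) (by norm_num) (by norm_num) (by norm_num) (by norm_num) 3 1 2 (by norm_num)
        (by norm_num) (by norm_num) (by norm_num) (by norm_num) (by norm_num) (24 / 121) (69 / 50)
        (by norm_num) (by norm_num) (by norm_num) (by norm_num) (by norm_num) (5561 / 1000)
        (by norm_num) (by norm_num) (by norm_num)
    · exact not_parry_case (d := 11) (by norm_num) hβ1 hβ (10683 / 10000) (10631 / 10000) (19013 / 20000) (by norm_num)
        (by norm_num) (by norm_num) (by norm_num) (by norm_num) (by norm_num) 4 1 2 (by norm_num)
        (by norm_num) (by norm_num) (by norm_num) (by norm_num) (by norm_num) (28 / 121) (333 / 200)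
        (by norm_num) (by norm_num) (by norm_num) (by norm_num) (by norm_num) (861 / 200)
        (by norm_num) (by norm_num) (by norm_num)
    · exact not_parry_case (d := 11) (by norm_num) hβ1 hβ (10683 / 10000) (10631 / 10000) (19013 / 20000) (by norm_num)
        (by norm_num) (by norm_num) (by norm_num) (by norm_num) (by norm_num) 5 1 2 (by norm_num)
        (by norm_num) (by norm_num) (by norm_num) (by norm_num) (by norm_num) (30 / 121) (1849 / 1000)
        (by norm_num) (by norm_num) (by norm_num) (by norm_num) (by norm_num) (1777 / 500)
        (by norm_num) (by norm_num) (by norm_num)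
    · exact not_parry_case (d := 11) (by norm_num) hβ1 hβ (10683 / 10000) (10631 / 10000) (19013 / 20000) (by norm_num)
        (by norm_num) (by norm_num) (by norm_num) (by norm_num) (by norm_num) 6 1 2 (by norm_num)
        (by norm_num) (by norm_num) (by norm_num) (by norm_num) (by norm_num) (6 / 25) (233 / 125)
        (by norm_num) (by norm_num) (by norm_num) (by norm_num) (by norm_num) (611 / 200)
        (by norm_num) (by norm_num) (by norm_num)
    · exact not_parry_case (d := 11) (by norm_num) hβ1 hβ (10683 / 10000) (10631 / 10000) (19013 / 20000) (by norm_num)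
        (by norm_num) (by norm_num) (by norm_num) (by norm_num) (by norm_num) 7 1 2 (by norm_num)
        (by norm_num) (by norm_num) (by norm_num) (by norm_num) (by norm_num) (21 / 100) (1719 / 1000)
        (by norm_num) (by norm_num) (by norm_num) (by norm_num) (by norm_num) (27 / 10)
        (by norm_num) (by norm_num) (by norm_num)
  · exact not_parry_case_golden (d := 11) (by norm_num) hβ1 hβ (10631 / 10000) (19013 / 20000) (by norm_num)
      (by norm_num) (by norm_num) (by norm_num) 8 (by norm_num) (16181 / 10000) (by norm_num)
      (by norm_num) (by norm_num) k h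

end Pool.Agent.Helper64.Parry
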