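import Pool.Agent.Helper64.Parry.CaseFour
import Pool.Agent.Helper64.Parry.CaseFive
import Pool.Agent.Helper64.Parry.SmallA
import Pool.Agent.Helper64.Parry.SmallB
import Pool.Agent.Helper64.Parry.Large

namespace Pool.Agent.Helper64.Parry

open Real

/-- Main theorem: no power of the real root `β > 1` of `x^d - x - 1`, `d ≥ 4`, is Parry. -/
theorem main {d : ℕ} (hd : 4 ≤ d) {β : ℝ} (hβ1 : 1 < β) (hβ : β ^ d = β + 1) (k : ℕ)
    (hk : 1 ≤ k) : ¬ IsParry (β ^ k) := by
  rcases Nat.lt_or_ge d 12 with h | h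
  · interval_cases d
    · exact case_4 hβ1 hβ k hk
    · exact case_5 hβ1 hβ k hk
    · by_cases h5 : k = 5
      · rw [h5]; exact case_6_5 hβ1 hβ
      · exact case_6 hβ1 hβ k hk h5
    · exact case_7 hβ1 hβ k hk
    · exact case_8 hβ1 hβ k hk
    · exact case_9 hβ1 hβ k hk
    · exact case_10 hβ1 hβ k hk
    · exact case_11 hβ1 hβ k hk
  · exact not_parry_ge_12 h hβ1 hβ k hk

end Pool.Agent.Helper64.Parry
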