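import Pool.Agent.Helper64.Parry.Basic

namespace Pool.Agent.Helper64.Parry

open Real

theorem orb_step {B : ℝ} {n : ℕ} {a a' : ℝ} (D : ℤ) (h : orb B n = a) (h' : B * a - D = a')
    (h0 : 0 ≤ a') (h1 : a' < 1) : orb B (n + 1) = a' ∧ dig B n = D := by
  have hd : dig B n = D := by
    unfold dig
    rw [h, Int.floor_eq_iff]
    constructor <;> linarith
  refine ⟨?_, hd⟩
  rw [orb_succ, hd, h, h']

theorem corb_step {B : ℝ} {Z : ℂ} {n : ℕ} {w w' : ℂ} (D : ℤ) (hd : dig B n = D)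
    (h : corb B Z n = w) (h' : Z * w - D = w') : corb B Z (n + 1) = w' := by
  rw [corb_succ, hd, h, h']

theorem corb4_2 {β : ℝ} {z : ℂ} (hβ : β ^ 4 = β + 1) (hz : z ^ 4 = z + 1)
    (l1 : 1.2207440 < β) (u1 : β < 1.2207441) (l2 : 1.4902161 < β ^ 2) (u2 : β ^ 2 < 1.4902163)
    (l3 : 1.8191723 < β ^ 3) (u3 : β ^ 3 < 1.8191727) :
    corb (β ^ 2) (z ^ 2) 10 = (-4) + (-3 * z) + 3 * z ^ 2 + 2 * z ^ 3 := by
  have o0 : orb (β ^ 2) 0 = 1 := orb_zero _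
  have c0 : corb (β ^ 2) (z ^ 2) 0 = 1 := corb_zero _ _
  obtain ⟨o1, g0⟩ := orb_step (1) o0
    (show β ^ 2 * (1) - ((1 : ℤ) : ℝ) = (-1) + β ^ 2 by
      push_cast; linear_combination (0) * hβ) (by linarith) (by linarith)
  have c1 := corb_step (1) g0 c0
    (show z ^ 2 * (1) - ((1 : ℤ) : ℂ) = (-1) + z ^ 2 by
      push_cast; linear_combination (0) * hz)
  obtain ⟨o2, g1⟩ := orb_step (0) o1
    (show β ^ 2 * ((-1) + β ^ 2) - ((0 : ℤ) : ℝ) = 1 + β + (-β ^ 2) by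
      push_cast; linear_combination (1) * hβ) (by linarith) (by linarith)
  have c2 := corb_step (0) g1 c1
    (show z ^ 2 * ((-1) + z ^ 2) - ((0 : ℤ) : ℂ) = 1 + z + (-z ^ 2) by
      push_cast; linear_combination (1) * hz)
  obtain ⟨o3, g2⟩ := orb_step (1) o2
    (show β ^ 2 * (1 + β + (-β ^ 2)) - ((1 : ℤ) : ℝ) = (-2) + (-β) + β ^ 2 + β ^ 3 by
      push_cast; linear_combination ((-1)) * hβ) (by linarith) (by linarith)
  have c3 := corb_step (1) g2 c2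
    (show z ^ 2 * (1 + z + (-z ^ 2)) - ((1 : ℤ) : ℂ) = (-2) + (-z) + z ^ 2 + z ^ 3 by
      push_cast; linear_combination ((-1)) * hz)
  obtain ⟨o4, g3⟩ := orb_step (0) o3
    (show β ^ 2 * ((-2) + (-β) + β ^ 2 + β ^ 3) - ((0 : ℤ) : ℝ) = 1 + 2 * β + (-β ^ 2) + (-β ^ 3) by
      push_cast; linear_combination (1 + β) * hβ) (by linarith) (by linarith)
  have c4 := corb_step (0) g3 c3
    (show z ^ 2 * ((-2) + (-z) + z ^ 2 + z ^ 3) - ((0 : ℤ) : ℂ) = 1 + 2 * z + (-z ^ 2) + (-z ^ 3) by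
      push_cast; linear_combination (1 + z) * hz)
  obtain ⟨o5, g4⟩ := orb_step (0) o4
    (show β ^ 2 * (1 + 2 * β + (-β ^ 2) + (-β ^ 3)) - ((0 : ℤ) : ℝ) = (-1) + (-2 * β) + 2 * β ^ 3 by
      push_cast; linear_combination ((-1) + (-β)) * hβ) (by linarith) (by linarith)
  have c5 := corb_step (0) g4 c4
    (show z ^ 2 * (1 + 2 * z + (-z ^ 2) + (-z ^ 3)) - ((0 : ℤ) : ℂ) = (-1) + (-2 * z) + 2 * z ^ 3 by
      push_cast; linear_combination ((-1) + (-z)) * hz)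
  obtain ⟨o6, g5⟩ := orb_step (0) o5
    (show β ^ 2 * ((-1) + (-2 * β) + 2 * β ^ 3) - ((0 : ℤ) : ℝ) = 2 * β + β ^ 2 + (-2 * β ^ 3) by
      push_cast; linear_combination (2 * β) * hβ) (by linarith) (by linarith)
  have c6 := corb_step (0) g5 c5
    (show z ^ 2 * ((-1) + (-2 * z) + 2 * z ^ 3) - ((0 : ℤ) : ℂ) = 2 * z + z ^ 2 + (-2 * z ^ 3) by
      push_cast; linear_combination (2 * z) * hz)
  obtain ⟨o7, g6⟩ := orb_step (0) o6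
    (show β ^ 2 * (2 * β + β ^ 2 + (-2 * β ^ 3)) - ((0 : ℤ) : ℝ) = 1 + (-β) + (-2 * β ^ 2) + 2 * β ^ 3 by
      push_cast; linear_combination (1 + (-2 * β)) * hβ) (by linarith) (by linarith)
  have c7 := corb_step (0) g6 c6
    (show z ^ 2 * (2 * z + z ^ 2 + (-2 * z ^ 3)) - ((0 : ℤ) : ℂ) = 1 + (-z) + (-2 * z ^ 2) + 2 * z ^ 3 by
      push_cast; linear_combination (1 + (-2 * z)) * hz)
  obtain ⟨o8, g7⟩ := orb_step (0) o7
    (show β ^ 2 * (1 + (-β) + (-2 * β ^ 2) + 2 * β ^ 3) - ((0 : ℤ) : ℝ) = (-2) + 3 * β ^ 2 + (-β ^ 3) by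
      push_cast; linear_combination ((-2) + 2 * β) * hβ) (by linarith) (by linarith)
  have c8 := corb_step (0) g7 c7
    (show z ^ 2 * (1 + (-z) + (-2 * z ^ 2) + 2 * z ^ 3) - ((0 : ℤ) : ℂ) = (-2) + 3 * z ^ 2 + (-z ^ 3) by
      push_cast; linear_combination ((-2) + 2 * z) * hz)
  obtain ⟨o9, g8⟩ := orb_step (0) o8
    (show β ^ 2 * ((-2) + 3 * β ^ 2 + (-β ^ 3)) - ((0 : ℤ) : ℝ) = 3 + 2 * β + (-3 * β ^ 2) by
      push_cast; linear_combination (3 + (-β)) * hβ) (by linarith) (by linarith)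
  have c9 := corb_step (0) g8 c8
    (show z ^ 2 * ((-2) + 3 * z ^ 2 + (-z ^ 3)) - ((0 : ℤ) : ℂ) = 3 + 2 * z + (-3 * z ^ 2) by
      push_cast; linear_combination (3 + (-z)) * hz)
  obtain ⟨o10, g9⟩ := orb_step (1) o9
    (show β ^ 2 * (3 + 2 * β + (-3 * β ^ 2)) - ((1 : ℤ) : ℝ) = (-4) + (-3 * β) + 3 * β ^ 2 + 2 * β ^ 3 by
      push_cast; linear_combination ((-3)) * hβ) (by linarith) (by linarith)
  have c10 := corb_step (1) g9 c9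
    (show z ^ 2 * (3 + 2 * z + (-3 * z ^ 2)) - ((1 : ℤ) : ℂ) = (-4) + (-3 * z) + 3 * z ^ 2 + 2 * z ^ 3 by
      push_cast; linear_combination ((-3)) * hz)
  exact c10

theorem corb4_3 {β : ℝ} {z : ℂ} (hβ : β ^ 4 = β + 1) (hz : z ^ 4 = z + 1)
    (l1 : 1.2207440 < β) (u1 : β < 1.2207441) (l2 : 1.4902161 < β ^ 2) (u2 : β ^ 2 < 1.4902163)
    (l3 : 1.8191723 < β ^ 3) (u3 : β ^ 3 < 1.8191727) :
    corb (β ^ 3) (z ^ 3) 7 = 1 + (-z) + (-2 * z ^ 2) + 2 * z ^ 3 := by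
  have o0 : orb (β ^ 3) 0 = 1 := orb_zero _
  have c0 : corb (β ^ 3) (z ^ 3) 0 = 1 := corb_zero _ _
  obtain ⟨o1, g0⟩ := orb_step (1) o0
    (show β ^ 3 * (1) - ((1 : ℤ) : ℝ) = (-1) + β ^ 3 by
      push_cast; linear_combination (0) * hβ) (by linarith) (by linarith)
  have c1 := corb_step (1) g0 c0
    (show z ^ 3 * (1) - ((1 : ℤ) : ℂ) = (-1) + z ^ 3 by
      push_cast; linear_combination (0) * hz)
  obtain ⟨o2, g1⟩ := orb_step (1) o1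
    (show β ^ 3 * ((-1) + β ^ 3) - ((1 : ℤ) : ℝ) = (-1) + β ^ 2 by
      push_cast; linear_combination (β ^ 2) * hβ) (by linarith) (by linarith)
  have c2 := corb_step (1) g1 c1
    (show z ^ 3 * ((-1) + z ^ 3) - ((1 : ℤ) : ℂ) = (-1) + z ^ 2 by
      push_cast; linear_combination (z ^ 2) * hz)
  obtain ⟨o3, g2⟩ := orb_step (0) o2
    (show β ^ 3 * ((-1) + β ^ 2) - ((0 : ℤ) : ℝ) = β + β ^ 2 + (-β ^ 3) by
      push_cast; linear_combination (β) * hβ) (by linarith) (by linarith)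
  have c3 := corb_step (0) g2 c2
    (show z ^ 3 * ((-1) + z ^ 2) - ((0 : ℤ) : ℂ) = z + z ^ 2 + (-z ^ 3) by
      push_cast; linear_combination (z) * hz)
  obtain ⟨o4, g3⟩ := orb_step (1) o3
    (show β ^ 3 * (β + β ^ 2 + (-β ^ 3)) - ((1 : ℤ) : ℝ) = 2 * β + (-β ^ 3) by
      push_cast; linear_combination (1 + β + (-β ^ 2)) * hβ) (by linarith) (by linarith)
  have c4 := corb_step (1) g3 c3
    (show z ^ 3 * (z + z ^ 2 + (-z ^ 3)) - ((1 : ℤ) : ℂ) = 2 * z + (-z ^ 3) by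
      push_cast; linear_combination (1 + z + (-z ^ 2)) * hz)
  obtain ⟨o5, g4⟩ := orb_step (1) o4
    (show β ^ 3 * (2 * β + (-β ^ 3)) - ((1 : ℤ) : ℝ) = 1 + 2 * β + (-β ^ 2) + (-β ^ 3) by
      push_cast; linear_combination (2 + (-β ^ 2)) * hβ) (by linarith) (by linarith)
  have c5 := corb_step (1) g4 c4
    (show z ^ 3 * (2 * z + (-z ^ 3)) - ((1 : ℤ) : ℂ) = 1 + 2 * z + (-z ^ 2) + (-z ^ 3) by
      push_cast; linear_combination (2 + (-z ^ 2)) * hz)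
  obtain ⟨o6, g5⟩ := orb_step (0) o5
    (show β ^ 3 * (1 + 2 * β + (-β ^ 2) + (-β ^ 3)) - ((0 : ℤ) : ℝ) = 2 + β + (-2 * β ^ 2) by
      push_cast; linear_combination (2 + (-β) + (-β ^ 2)) * hβ) (by linarith) (by linarith)
  have c6 := corb_step (0) g5 c5
    (show z ^ 3 * (1 + 2 * z + (-z ^ 2) + (-z ^ 3)) - ((0 : ℤ) : ℂ) = 2 + z + (-2 * z ^ 2) by
      push_cast; linear_combination (2 + (-z) + (-z ^ 2)) * hz)
  obtain ⟨o7, g6⟩ := orb_step (0) o6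
    (show β ^ 3 * (2 + β + (-2 * β ^ 2)) - ((0 : ℤ) : ℝ) = 1 + (-β) + (-2 * β ^ 2) + 2 * β ^ 3 by
      push_cast; linear_combination (1 + (-2 * β)) * hβ) (by linarith) (by linarith)
  have c7 := corb_step (0) g6 c6
    (show z ^ 3 * (2 + z + (-2 * z ^ 2)) - ((0 : ℤ) : ℂ) = 1 + (-z) + (-2 * z ^ 2) + 2 * z ^ 3 by
      push_cast; linear_combination (1 + (-2 * z)) * hz)
  exact c7

theorem corb4_4 {β : ℝ} {z : ℂ} (hβ : β ^ 4 = β + 1) (hz : z ^ 4 = z + 1)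
    (l1 : 1.2207440 < β) (u1 : β < 1.2207441) (l2 : 1.4902161 < β ^ 2) (u2 : β ^ 2 < 1.4902163)
    (l3 : 1.8191723 < β ^ 3) (u3 : β ^ 3 < 1.8191727) :
    corb (β ^ 4) (z ^ 4) 7 = 1 + 5 * z + (-z ^ 2) + (-3 * z ^ 3) := by
  have o0 : orb (β ^ 4) 0 = 1 := orb_zero _
  have c0 : corb (β ^ 4) (z ^ 4) 0 = 1 := corb_zero _ _
  obtain ⟨o1, g0⟩ := orb_step (2) o0
    (show β ^ 4 * (1) - ((2 : ℤ) : ℝ) = (-1) + β by
      push_cast; linear_combination (1) * hβ) (by linarith) (by linarith)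
  have c1 := corb_step (2) g0 c0
    (show z ^ 4 * (1) - ((2 : ℤ) : ℂ) = (-1) + z by
      push_cast; linear_combination (1) * hz)
  obtain ⟨o2, g1⟩ := orb_step (0) o1
    (show β ^ 4 * ((-1) + β) - ((0 : ℤ) : ℝ) = (-1) + β ^ 2 by
      push_cast; linear_combination ((-1) + β) * hβ) (by linarith) (by linarith)
  have c2 := corb_step (0) g1 c1
    (show z ^ 4 * ((-1) + z) - ((0 : ℤ) : ℂ) = (-1) + z ^ 2 by
      push_cast; linear_combination ((-1) + z) * hz)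
  obtain ⟨o3, g2⟩ := orb_step (1) o2
    (show β ^ 4 * ((-1) + β ^ 2) - ((1 : ℤ) : ℝ) = (-2) + (-β) + β ^ 2 + β ^ 3 by
      push_cast; linear_combination ((-1) + β ^ 2) * hβ) (by linarith) (by linarith)
  have c3 := corb_step (1) g2 c2
    (show z ^ 4 * ((-1) + z ^ 2) - ((1 : ℤ) : ℂ) = (-2) + (-z) + z ^ 2 + z ^ 3 by
      push_cast; linear_combination ((-1) + z ^ 2) * hz)
  obtain ⟨o4, g3⟩ := orb_step (0) o3
    (show β ^ 4 * ((-2) + (-β) + β ^ 2 + β ^ 3) - ((0 : ℤ) : ℝ) = (-1) + (-2 * β) + 2 * β ^ 3 by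
      push_cast; linear_combination ((-1) + (-β) + β ^ 2 + β ^ 3) * hβ) (by linarith) (by linarith)
  have c4 := corb_step (0) g3 c3
    (show z ^ 4 * ((-2) + (-z) + z ^ 2 + z ^ 3) - ((0 : ℤ) : ℂ) = (-1) + (-2 * z) + 2 * z ^ 3 by
      push_cast; linear_combination ((-1) + (-z) + z ^ 2 + z ^ 3) * hz)
  obtain ⟨o5, g4⟩ := orb_step (0) o4
    (show β ^ 4 * ((-1) + (-2 * β) + 2 * β ^ 3) - ((0 : ℤ) : ℝ) = 1 + (-β) + (-2 * β ^ 2) + 2 * β ^ 3 by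
      push_cast; linear_combination (1 + (-2 * β) + 2 * β ^ 3) * hβ) (by linarith) (by linarith)
  have c5 := corb_step (0) g4 c4
    (show z ^ 4 * ((-1) + (-2 * z) + 2 * z ^ 3) - ((0 : ℤ) : ℂ) = 1 + (-z) + (-2 * z ^ 2) + 2 * z ^ 3 by
      push_cast; linear_combination (1 + (-2 * z) + 2 * z ^ 3) * hz)
  obtain ⟨o6, g5⟩ := orb_step (0) o5
    (show β ^ 4 * (1 + (-β) + (-2 * β ^ 2) + 2 * β ^ 3) - ((0 : ℤ) : ℝ) = 3 + 2 * β + (-3 * β ^ 2) by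
      push_cast; linear_combination (3 + (-β) + (-2 * β ^ 2) + 2 * β ^ 3) * hβ) (by linarith) (by linarith)
  have c6 := corb_step (0) g5 c5
    (show z ^ 4 * (1 + (-z) + (-2 * z ^ 2) + 2 * z ^ 3) - ((0 : ℤ) : ℂ) = 3 + 2 * z + (-3 * z ^ 2) by
      push_cast; linear_combination (3 + (-z) + (-2 * z ^ 2) + 2 * z ^ 3) * hz)
  obtain ⟨o7, g6⟩ := orb_step (2) o6
    (show β ^ 4 * (3 + 2 * β + (-3 * β ^ 2)) - ((2 : ℤ) : ℝ) = 1 + 5 * β + (-β ^ 2) + (-3 * β ^ 3) by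
      push_cast; linear_combination (3 + 2 * β + (-3 * β ^ 2)) * hβ) (by linarith) (by linarith)
  have c7 := corb_step (2) g6 c6
    (show z ^ 4 * (3 + 2 * z + (-3 * z ^ 2)) - ((2 : ℤ) : ℂ) = 1 + 5 * z + (-z ^ 2) + (-3 * z ^ 3) by
      push_cast; linear_combination (3 + 2 * z + (-3 * z ^ 2)) * hz)
  exact c7

theorem corb4_5 {β : ℝ} {z : ℂ} (hβ : β ^ 4 = β + 1) (hz : z ^ 4 = z + 1)
    (l1 : 1.2207440 < β) (u1 : β < 1.2207441) (l2 : 1.4902161 < β ^ 2) (u2 : β ^ 2 < 1.4902163)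
    (l3 : 1.8191723 < β ^ 3) (u3 : β ^ 3 < 1.8191727) :
    corb (β ^ 5) (z ^ 5) 3 = (-1) + 3 * z + z ^ 2 + (-2 * z ^ 3) := by
  have o0 : orb (β ^ 5) 0 = 1 := orb_zero _
  have c0 : corb (β ^ 5) (z ^ 5) 0 = 1 := corb_zero _ _
  obtain ⟨o1, g0⟩ := orb_step (2) o0
    (show β ^ 5 * (1) - ((2 : ℤ) : ℝ) = (-2) + β + β ^ 2 by
      push_cast; linear_combination (β) * hβ) (by linarith) (by linarith)
  have c1 := corb_step (2) g0 c0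
    (show z ^ 5 * (1) - ((2 : ℤ) : ℂ) = (-2) + z + z ^ 2 by
      push_cast; linear_combination (z) * hz)
  obtain ⟨o2, g1⟩ := orb_step (1) o1
    (show β ^ 5 * ((-2) + β + β ^ 2) - ((1 : ℤ) : ℝ) = (-β) + (-β ^ 2) + 2 * β ^ 3 by
      push_cast; linear_combination (1 + (-2 * β) + β ^ 2 + β ^ 3) * hβ) (by linarith) (by linarith)
  have c2 := corb_step (1) g1 c1
    (show z ^ 5 * ((-2) + z + z ^ 2) - ((1 : ℤ) : ℂ) = (-z) + (-z ^ 2) + 2 * z ^ 3 by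
      push_cast; linear_combination (1 + (-2 * z) + z ^ 2 + z ^ 3) * hz)
  obtain ⟨o3, g2⟩ := orb_step (2) o2
    (show β ^ 5 * ((-β) + (-β ^ 2) + 2 * β ^ 3) - ((2 : ℤ) : ℝ) = (-1) + 3 * β + β ^ 2 + (-2 * β ^ 3) by
      push_cast; linear_combination (1 + 2 * β + (-β ^ 2) + (-β ^ 3) + 2 * β ^ 4) * hβ) (by linarith) (by linarith)
  have c3 := corb_step (2) g2 c2
    (show z ^ 5 * ((-z) + (-z ^ 2) + 2 * z ^ 3) - ((2 : ℤ) : ℂ) = (-1) + 3 * z + z ^ 2 + (-2 * z ^ 3) by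
      push_cast; linear_combination (1 + 2 * z + (-z ^ 2) + (-z ^ 3) + 2 * z ^ 4) * hz)
  exact c3

theorem corb4_6 {β : ℝ} {z : ℂ} (hβ : β ^ 4 = β + 1) (hz : z ^ 4 = z + 1)
    (l1 : 1.2207440 < β) (u1 : β < 1.2207441) (l2 : 1.4902161 < β ^ 2) (u2 : β ^ 2 < 1.4902163)
    (l3 : 1.8191723 < β ^ 3) (u3 : β ^ 3 < 1.8191727) :
    corb (β ^ 6) (z ^ 6) 3 = 3 + z + (-4 * z ^ 2) + z ^ 3 := by
  have o0 : orb (β ^ 6) 0 = 1 := orb_zero _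
  have c0 : corb (β ^ 6) (z ^ 6) 0 = 1 := corb_zero _ _
  obtain ⟨o1, g0⟩ := orb_step (3) o0
    (show β ^ 6 * (1) - ((3 : ℤ) : ℝ) = (-3) + β ^ 2 + β ^ 3 by
      push_cast; linear_combination (β ^ 2) * hβ) (by linarith) (by linarith)
  have c1 := corb_step (3) g0 c0
    (show z ^ 6 * (1) - ((3 : ℤ) : ℂ) = (-3) + z ^ 2 + z ^ 3 by
      push_cast; linear_combination (z ^ 2) * hz)
  obtain ⟨o2, g1⟩ := orb_step (1) o1
    (show β ^ 6 * ((-3) + β ^ 2 + β ^ 3) - ((1 : ℤ) : ℝ) = 3 * β + (-2 * β ^ 3) by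
      push_cast; linear_combination (1 + 2 * β + (-2 * β ^ 2) + β ^ 4 + β ^ 5) * hβ) (by linarith) (by linarith)
  have c2 := corb_step (1) g1 c1
    (show z ^ 6 * ((-3) + z ^ 2 + z ^ 3) - ((1 : ℤ) : ℂ) = 3 * z + (-2 * z ^ 3) by
      push_cast; linear_combination (1 + 2 * z + (-2 * z ^ 2) + z ^ 4 + z ^ 5) * hz)
  obtain ⟨o3, g2⟩ := orb_step (0) o2
    (show β ^ 6 * (3 * β + (-2 * β ^ 3)) - ((0 : ℤ) : ℝ) = 3 + β + (-4 * β ^ 2) + β ^ 3 by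
      push_cast; linear_combination (3 + (-2 * β) + (-2 * β ^ 2) + 3 * β ^ 3 + (-2 * β ^ 5)) * hβ) (by linarith) (by linarith)
  have c3 := corb_step (0) g2 c2
    (show z ^ 6 * (3 * z + (-2 * z ^ 3)) - ((0 : ℤ) : ℂ) = 3 + z + (-4 * z ^ 2) + z ^ 3 by
      push_cast; linear_combination (3 + (-2 * z) + (-2 * z ^ 2) + 3 * z ^ 3 + (-2 * z ^ 5)) * hz)
  exact c3

theorem corb4_7 {β : ℝ} {z : ℂ} (hβ : β ^ 4 = β + 1) (hz : z ^ 4 = z + 1)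
    (l1 : 1.2207440 < β) (u1 : β < 1.2207441) (l2 : 1.4902161 < β ^ 2) (u2 : β ^ 2 < 1.4902163)
    (l3 : 1.8191723 < β ^ 3) (u3 : β ^ 3 < 1.8191727) :
    corb (β ^ 7) (z ^ 7) 4 = (-5) + 5 * z ^ 2 + (-z ^ 3) := by
  have o0 : orb (β ^ 7) 0 = 1 := orb_zero _
  have c0 : corb (β ^ 7) (z ^ 7) 0 = 1 := corb_zero _ _
  obtain ⟨o1, g0⟩ := orb_step (4) o0
    (show β ^ 7 * (1) - ((4 : ℤ) : ℝ) = (-3) + β + β ^ 3 by
      push_cast; linear_combination (1 + β ^ 3) * hβ) (by linarith) (by linarith)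
  have c1 := corb_step (4) g0 c0
    (show z ^ 7 * (1) - ((4 : ℤ) : ℂ) = (-3) + z + z ^ 3 by
      push_cast; linear_combination (1 + z ^ 3) * hz)
  obtain ⟨o2, g1⟩ := orb_step (0) o1
    (show β ^ 7 * ((-3) + β + β ^ 3) - ((0 : ℤ) : ℝ) = (-1) + 2 * β ^ 2 + (-β ^ 3) by
      push_cast; linear_combination ((-1) + β + β ^ 2 + (-2 * β ^ 3) + β ^ 4 + β ^ 6) * hβ) (by linarith) (by linarith)
  have c2 := corb_step (0) g1 c1
    (show z ^ 7 * ((-3) + z + z ^ 3) - ((0 : ℤ) : ℂ) = (-1) + 2 * z ^ 2 + (-z ^ 3) by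
      push_cast; linear_combination ((-1) + z + z ^ 2 + (-2 * z ^ 3) + z ^ 4 + z ^ 6) * hz)
  obtain ⟨o3, g2⟩ := orb_step (0) o2
    (show β ^ 7 * ((-1) + 2 * β ^ 2 + (-β ^ 3)) - ((0 : ℤ) : ℝ) = (-2) + 3 * β ^ 2 + (-β ^ 3) by
      push_cast; linear_combination ((-2) + 2 * β + β ^ 2 + (-2 * β ^ 3) + 2 * β ^ 5 + (-β ^ 6)) * hβ) (by linarith) (by linarith)
  have c3 := corb_step (0) g2 c2
    (show z ^ 7 * ((-1) + 2 * z ^ 2 + (-z ^ 3)) - ((0 : ℤ) : ℂ) = (-2) + 3 * z ^ 2 + (-z ^ 3) by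
      push_cast; linear_combination ((-2) + 2 * z + z ^ 2 + (-2 * z ^ 3) + 2 * z ^ 5 + (-z ^ 6)) * hz)
  obtain ⟨o4, g3⟩ := orb_step (2) o3
    (show β ^ 7 * ((-2) + 3 * β ^ 2 + (-β ^ 3)) - ((2 : ℤ) : ℝ) = (-5) + 5 * β ^ 2 + (-β ^ 3) by
      push_cast; linear_combination ((-3) + 3 * β + 2 * β ^ 2 + (-3 * β ^ 3) + 3 * β ^ 5 + (-β ^ 6)) * hβ) (by linarith) (by linarith)
  have c4 := corb_step (2) g3 c3
    (show z ^ 7 * ((-2) + 3 * z ^ 2 + (-z ^ 3)) - ((2 : ℤ) : ℂ) = (-5) + 5 * z ^ 2 + (-z ^ 3) by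
      push_cast; linear_combination ((-3) + 3 * z + 2 * z ^ 2 + (-3 * z ^ 3) + 3 * z ^ 5 + (-z ^ 6)) * hz)
  exact c4

end Pool.Agent.Helper64.Parry
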