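import Mathlib

/-!
The complex root of `x^d - x - 1` with argument in `(2π/d, 2π/(d-1))`.
-/

namespace Pool.Agent.Helper64.Parry

open Polynomial

/-- Existence of the root, parametrised by its argument: if `F` changes sign on `[a,b]`. -/
theorem exists_root_of_sign {d : ℕ} (hd : 1 ≤ d) {a b : ℝ} (hab : a ≤ b)
    (hψ : ∀ θ, a ≤ θ → θ < b → 0 < Real.sin (2 * Real.pi - (d - 1) * θ))
    (hFa : Real.sin (d * a - 2 * Real.pi) ^ d ≤
      Real.sin a * Real.sin (2 * Real.pi - (d - 1) * a) ^ (d - 1))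
    (hFb : Real.sin b * Real.sin (2 * Real.pi - (d - 1) * b) ^ (d - 1) <
      Real.sin (d * b - 2 * Real.pi) ^ d) :
    ∃ θ r : ℝ, a ≤ θ ∧ θ < b ∧
      r = Real.sin (d * θ - 2 * Real.pi) / Real.sin (2 * Real.pi - (d - 1) * θ) ∧
      r ^ d = Real.sin θ / Real.sin (2 * Real.pi - (d - 1) * θ) ∧
      ((r : ℂ) * Complex.exp (θ * Complex.I)) ^ d = (r : ℂ) * Complex.exp (θ * Complex.I) + 1 := by
  set F : ℝ → ℝ := fun θ => Real.sin (d * θ - 2 * Real.pi) ^ d -
    Real.sin θ * Real.sin (2 * Real.pi - (d - 1) * θ) ^ (d - 1) with hF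
  have hcont : ContinuousOn F (Set.Icc a b) := by
    apply Continuous.continuousOn
    rw [hF]; fun_prop
  have hmem : (0 : ℝ) ∈ Set.Icc (F a) (F b) := by
    constructor
    · simp only [hF]; linarith
    · simp only [hF]; linarith
  obtain ⟨θ, ⟨h1, h2⟩, h3⟩ := intermediate_value_Icc hab hcont hmem
  have hlt : θ < b := by
    rcases h2.eq_or_lt with h | h
    · exfalso
      rw [h] at h3
      simp only [hF] at h3
      linarith
    · exact h
  have hpos := hψ θ h1 hlt
  set ψ : ℝ := 2 * Real.pi - (d - 1) * θ with hψdef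
  set φ : ℝ := d * θ - 2 * Real.pi with hφdef
  have hsum : θ = φ + ψ := by rw [hφdef, hψdef]; ring
  have h4 : Real.sin φ ^ d = Real.sin θ * Real.sin ψ ^ (d - 1) := by
    simp only [hF] at h3; linarith
  have hne : Real.sin ψ ≠ 0 := hpos.ne'
  set r : ℝ := Real.sin φ / Real.sin ψ with hr
  have hrd : r ^ d = Real.sin θ / Real.sin ψ := by
    rw [hr, div_pow, h4, div_eq_div_iff (pow_ne_zero _ hne) hne, mul_assoc, ← pow_succ]
    congr 2
    omega
  refine ⟨θ, r, h1, hlt, rfl, hrd, ?_⟩
  have e1 : Complex.exp (θ * Complex.I) = Real.cos θ + Real.sin θ * Complex.I := by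
    rw [Complex.exp_mul_I]; push_cast; ring
  have e2 : Complex.exp (θ * Complex.I) ^ d = Real.cos φ + Real.sin φ * Complex.I := by
    rw [← Complex.exp_nat_mul]
    have : (d : ℂ) * (θ * Complex.I) = (φ : ℂ) * Complex.I + 2 * Real.pi * Complex.I := by
      rw [hφdef]; push_cast; ring
    rw [this, Complex.exp_add, Complex.exp_two_pi_mul_I, mul_one, Complex.exp_mul_I]
    push_cast; ring
  rw [mul_pow, e2, e1]
  have e3 : r ^ d * Real.cos φ = r * Real.cos θ + 1 := by
    have e4 : Real.sin ψ = Real.sin θ * Real.cos φ - Real.cos θ * Real.sin φ := by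
      rw [← Real.sin_sub]; congr 1; rw [hsum]; ring
    rw [hrd, hr]
    field_simp
    linarith
  have e5 : r ^ d * Real.sin φ = r * Real.sin θ := by
    rw [hrd, hr]; field_simp
  apply Complex.ext
  · simp only [Complex.add_re, Complex.mul_re, Complex.ofReal_re, Complex.ofReal_im,
      Complex.I_re, Complex.I_im, Complex.one_re, Complex.add_im, Complex.mul_im,
      ← Complex.ofReal_pow]
    linarith
  · simp only [Complex.add_re, Complex.mul_re, Complex.ofReal_re, Complex.ofReal_im,
      Complex.I_re, Complex.I_im, Complex.one_im, Complex.add_im, Complex.mul_im,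
      ← Complex.ofReal_pow]
    linarith

end Pool.Agent.Helper64.Parry
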