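import Pool.Agent.Helper64.Parry.Basic

/-!
The potential criterion: `|w_n| ≥ K a_n^s`.
-/

namespace Pool.Agent.Helper64.Parry

/-- `y ↦ y^s - (y-1)^s` is antitone on `[1,∞)` for `0 < s ≤ 1`. -/
theorem rpow_sub_rpow_antitone {s : ℝ} (hs0 : 0 < s) (hs1 : s ≤ 1) {y B : ℝ} (hy : 1 ≤ y)
    (hyB : y ≤ B) : B ^ s - (B - 1) ^ s ≤ y ^ s - (y - 1) ^ s := by
  have hconc : ConcaveOn ℝ (Set.Ici (0 : ℝ)) (fun x : ℝ => x ^ s) := Real.concaveOn_rpow hs0.le hs1
  rcases eq_or_lt_of_le hyB with h | h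
  · rw [h]
  -- points: y-1 ≤ y , B-1 ≤ B ; use convex combinations
  -- y = t (y-1) + (1-t) B,  B-1 = (1-t)(y-1) + t B  with t = (B - y)/(B - y + 1)
  set t : ℝ := (B - y) / (B - y + 1) with ht
  have hpos : 0 < B - y + 1 := by linarith
  have ht0 : 0 ≤ t := by rw [ht]; apply div_nonneg <;> linarith
  have ht1 : 0 ≤ 1 - t := by
    rw [ht]
    have : 1 - (B - y) / (B - y + 1) = 1 / (B - y + 1) := by field_simp; ring
    rw [this]; positivity
  have e1 : t * (y - 1) + (1 - t) * B = y := by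
    rw [ht]; field_simp; ring
  have e2 : (1 - t) * (y - 1) + t * B = B - 1 := by
    rw [ht]; field_simp; ring
  have c1 := hconc.2 (x := y - 1) (y := B) (by simp; linarith) (by simp; linarith) ht0 ht1
    (by ring)
  have c2 := hconc.2 (x := y - 1) (y := B) (by simp; linarith) (by simp; linarith) ht1 ht0
    (by ring)
  simp only [smul_eq_mul] at c1 c2
  rw [e1] at c1
  rw [e2] at c2
  linarith

/-- Second criterion. -/
theorem not_parry_of_star {B : ℝ} {Z : ℂ} (hc : Conj B Z) (hB : 1 < B) (hB2 : B < 2)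
    {s : ℝ} (hs0 : 0 < s) (hs1 : s ≤ 1) (hZ : B ^ s ≤ ‖Z‖)
    (hK : 1 < ‖Z - 1‖ * ((B / (B - 1)) ^ s - 1)) : ¬ IsParry B := by
  intro hP
  have hb : 0 < B - 1 := by linarith
  have hB0 : 0 < B := by linarith
  have hbs : 0 < (B - 1) ^ s := Real.rpow_pos_of_pos hb s
  set K : ℝ := ‖Z - 1‖ / (B - 1) ^ s with hKdef
  have hK' : 1 < K * (B ^ s - (B - 1) ^ s) := by
    have : ‖Z - 1‖ * ((B / (B - 1)) ^ s - 1) = K * (B ^ s - (B - 1) ^ s) := by
      rw [Real.div_rpow hB0.le hb.le, hKdef]; field_simp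
    linarith
  have hdiff1 : B ^ s - (B - 1) ^ s ≤ 1 := by
    have h := rpow_sub_rpow_antitone hs0 hs1 (le_refl (1:ℝ)) hB.le
    rw [sub_self, Real.zero_rpow hs0.ne', Real.one_rpow] at h
    linarith
  have hKnn : 0 ≤ K := by rw [hKdef]; positivity
  have hdiffpos : 0 < B ^ s - (B - 1) ^ s := by
    by_contra hcon
    push Not at hcon
    have := mul_nonpos_of_nonneg_of_nonpos hKnn hcon
    linarith
  have hK1 : 1 < K := by
    nlinarith
  -- one step of the dynamics
  have step : ∀ n, 0 < orb B n → ∀ q, K ≤ q → q * (orb B n) ^ s ≤ ‖corb B Z n‖ →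
      0 < orb B (n + 1) ∧ q * (orb B (n + 1)) ^ s ≤ ‖corb B Z (n + 1)‖ ∧
      (orb B (n + 1) = B * orb B n ∨ q * (orb B (n + 1)) ^ s < ‖corb B Z (n + 1)‖) := by
    intro n hpos q hq hle
    have hy0 : 0 < B * orb B n := mul_pos hB0 hpos
    have hyB : B * orb B n ≤ B := by nlinarith [orb_le_one B n]
    have hprod : q * (B * orb B n) ^ s ≤ ‖Z * corb B Z n‖ := by
      rw [norm_mul, Real.mul_rpow hB0.le hpos.le]
      have h1 : 0 ≤ B ^ s := Real.rpow_nonneg hB0.le s
      have h2 : 0 ≤ q * (orb B n) ^ s :=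
        mul_nonneg (by linarith) (Real.rpow_nonneg hpos.le s)
      calc q * (B ^ s * orb B n ^ s) = B ^ s * (q * orb B n ^ s) := by ring
        _ ≤ ‖Z‖ * ‖corb B Z n‖ := mul_le_mul hZ hle h2 (norm_nonneg _)
    rcases lt_or_ge (B * orb B n) 1 with hlt | hge
    · -- digit 0
      have hd : dig B n = 0 := by
        unfold dig
        rw [Int.floor_eq_zero_iff]
        exact ⟨hy0.le, hlt⟩
      have ho : orb B (n + 1) = B * orb B n := by rw [orb_succ, hd]; simp
      have hw : corb B Z (n + 1) = Z * corb B Z n := by rw [corb_succ, hd]; simp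
      rw [ho, hw]
      exact ⟨hy0, hprod, Or.inl rfl⟩
    · -- digit 1
      have hd : dig B n = 1 := by
        unfold dig
        rw [Int.floor_eq_iff]
        push_cast
        constructor <;> linarith
      have ho : orb B (n + 1) = B * orb B n - 1 := by rw [orb_succ, hd]; simp
      have hw : corb B Z (n + 1) = Z * corb B Z n - 1 := by rw [corb_succ, hd]; simp
      have hnorm : ‖Z * corb B Z n‖ - 1 ≤ ‖corb B Z (n + 1)‖ := by
        rw [hw]
        have := norm_sub_norm_le (Z * corb B Z n) (1 : ℂ)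
        rwa [norm_one] at this
      set y := B * orb B n with hy
      have hanti := rpow_sub_rpow_antitone hs0 hs1 hge hyB
      have hstrict : q * (y - 1) ^ s < q * y ^ s - 1 := by
        have h1 : K * (B ^ s - (B - 1) ^ s) ≤ q * (y ^ s - (y - 1) ^ s) :=
          mul_le_mul hq hanti hdiffpos.le (by linarith)
        nlinarith
      have hstrict' : q * (orb B (n + 1)) ^ s < ‖corb B Z (n + 1)‖ := by
        rw [ho]; linarith
      refine ⟨?_, hstrict'.le, Or.inr hstrict'⟩
      rcases (orb_nonneg_succ B n).eq_or_lt with h0 | h0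
      · exfalso
        have hz : corb B Z (n + 1) = 0 := corb_eq_zero_of_orb_eq_zero hc h0.symm
        rw [hz, norm_zero] at hstrict'
        have h2 : 0 ≤ q * (orb B (n + 1)) ^ s :=
          mul_nonneg (by linarith) (Real.rpow_nonneg (orb_nonneg_succ B n) s)
        linarith
      · exact h0
  -- base case n = 1
  have hd0 : dig B 0 = 1 := by
    unfold dig
    rw [orb_zero, mul_one, Int.floor_eq_iff]
    push_cast
    constructor <;> linarith
  have ho1 : orb B 1 = B - 1 := by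
    rw [show (1 : ℕ) = 0 + 1 from rfl, orb_succ, hd0, orb_zero]; simp
  have hw1 : corb B Z 1 = Z - 1 := by
    rw [show (1 : ℕ) = 0 + 1 from rfl, corb_succ, hd0, corb_zero]; simp
  have base : 0 < orb B 1 ∧ K * (orb B 1) ^ s ≤ ‖corb B Z 1‖ := by
    rw [ho1, hw1]
    refine ⟨hb, ?_⟩
    rw [hKdef]
    field_simp
    exact le_refl _
  have all : ∀ n, 0 < orb B (n + 1) ∧ K * (orb B (n + 1)) ^ s ≤ ‖corb B Z (n + 1)‖ := by
    intro n
    induction n with
    | zero => exact base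
    | succ n ih =>
      obtain ⟨h1, h2, _⟩ := step (n + 1) ih.1 K le_rfl ih.2
      exact ⟨h1, h2⟩
  -- pigeonhole
  obtain ⟨_, hfin⟩ := hP
  have hinf : ∃ n m : ℕ, n < m ∧ orb B (n + 1) = orb B (m + 1) := by
    have hmaps : ∀ n : ℕ, orb B (n + 1) ∈ {y : ℝ | ∃ n : ℕ, 1 ≤ n ∧ (betaMap B)^[n] 1 = y} :=
      fun n => ⟨n + 1, Nat.le_add_left 1 n, rfl⟩
    have := hfin.to_subtype
    obtain ⟨a, b, hab, heq⟩ := Finite.exists_ne_map_eq_of_infinite
      (fun n : ℕ => (⟨orb B (n + 1), hmaps n⟩ :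
        {y : ℝ | ∃ n : ℕ, 1 ≤ n ∧ (betaMap B)^[n] 1 = y}))
    have heq' : orb B (a + 1) = orb B (b + 1) := congrArg Subtype.val heq
    rcases lt_or_gt_of_ne hab with h | h
    · exact ⟨a, b, h, heq'⟩
    · exact ⟨b, a, h, heq'.symm⟩
  obtain ⟨n, m, hnm, heq⟩ := hinf
  have hpos := (all n).1
  have hps : 0 < (orb B (n + 1)) ^ s := Real.rpow_pos_of_pos hpos s
  set q : ℝ := ‖corb B Z (n + 1)‖ / (orb B (n + 1)) ^ s with hq
  have hqK : K ≤ q := by
    rw [hq, le_div_iff₀ hps]; exact (all n).2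
  have hqn : q * (orb B (n + 1)) ^ s = ‖corb B Z (n + 1)‖ := by
    rw [hq]; field_simp
  have prop : ∀ j : ℕ, 0 < orb B (n + 1 + j) ∧
      q * (orb B (n + 1 + j)) ^ s ≤ ‖corb B Z (n + 1 + j)‖ ∧
      (orb B (n + 1 + j) = B ^ j * orb B (n + 1) ∨
        q * (orb B (n + 1 + j)) ^ s < ‖corb B Z (n + 1 + j)‖) := by
    intro j
    induction j with
    | zero => exact ⟨hpos, hqn.le, Or.inl (by simp)⟩
    | succ j ih =>
      obtain ⟨i1, i2, i3⟩ := ih
      obtain ⟨s1, s2, s3⟩ := step (n + 1 + j) i1 q hqK i2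
      refine ⟨s1, s2, ?_⟩
      rcases i3 with i3 | i3
      · rcases s3 with s3 | s3
        · left
          rw [show n + 1 + (j + 1) = n + 1 + j + 1 from rfl, s3, i3]; ring
        · right; exact s3
      · right
        -- strictness propagates: use slightly larger q'
        set q' : ℝ := ‖corb B Z (n + 1 + j)‖ / (orb B (n + 1 + j)) ^ s with hq'
        have hps' : 0 < (orb B (n + 1 + j)) ^ s := Real.rpow_pos_of_pos i1 s
        have hqq' : q < q' := by rw [hq', lt_div_iff₀ hps']; exact i3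
        obtain ⟨t1, t2, _⟩ := step (n + 1 + j) i1 q' (hqK.trans hqq'.le)
          (by rw [hq']; field_simp; exact le_refl _)
        have hps'' : 0 < (orb B (n + 1 + j + 1)) ^ s := Real.rpow_pos_of_pos t1 s
        have := mul_lt_mul_of_pos_right hqq' hps''
        exact lt_of_lt_of_le this t2
  obtain ⟨_, _, h3⟩ := prop (m - n)
  have hidx : n + 1 + (m - n) = m + 1 := by omega
  rw [hidx, ← heq] at h3
  rcases h3 with h3 | h3
  · have h4 : 1 < B ^ (m - n) := one_lt_pow₀ hB (by omega)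
    nlinarith
  · have h5 : corb B Z (m + 1) = corb B Z (n + 1) := corb_eq_of_orb_eq hc heq.symm
    rw [h5, ← hqn] at h3
    exact lt_irrefl _ h3

end Pool.Agent.Helper64.Parry
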